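import Mathlib

set_option autoImplicit false

namespace Pool.Agent.Lib.MP_def192_nt

open Finset

/-- central bound ratio -/
theorem choose_middle_succ_le (k : ℕ) :
    (k + 1).choose ((k + 1) / 2) ≤ 2 * k.choose (k / 2) := by
  rcases Nat.eq_zero_or_pos ((k + 1) / 2) with h | h
  · have hk : k = 0 := by omega
    subst hk
    decide
  · obtain ⟨j, hj⟩ : ∃ j, (k + 1) / 2 = j + 1 := ⟨(k + 1) / 2 - 1, by omega⟩
    rw [hj, Nat.choose_succ_succ]
    have h1 := Nat.choose_le_middle j k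
    have h2 := Nat.choose_le_middle (j + 1) k
    simp only [Nat.succ_eq_add_one]
    omega

theorem choose_middle_add_le (L i : ℕ) :
    (L + i).choose ((L + i) / 2) ≤ 2 ^ i * L.choose (L / 2) := by
  induction i with
  | zero => simp
  | succ i ih =>
    calc (L + (i + 1)).choose ((L + (i + 1)) / 2)
        = ((L + i) + 1).choose (((L + i) + 1) / 2) := by rw [add_assoc]
      _ ≤ 2 * (L + i).choose ((L + i) / 2) := choose_middle_succ_le _
      _ ≤ 2 * (2 ^ i * L.choose (L / 2)) := by gcongr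
      _ = 2 ^ (i + 1) * L.choose (L / 2) := by ring

/-- the ratio `b_L = choose(L, L/2) / 2^L`. -/
noncomputable def bb (L : ℕ) : ℝ := (L.choose (L / 2) : ℝ) / 2 ^ L

theorem bb_nonneg (L : ℕ) : 0 ≤ bb L := by unfold bb; positivity

theorem choose_middle_le (L k : ℕ) :
    (k.choose (k / 2) : ℝ) ≤ 2 ^ L + bb L * 2 ^ k := by
  rcases le_total L k with h | h
  · obtain ⟨i, rfl⟩ := Nat.exists_eq_add_of_le h
    have h1 : ((L + i).choose ((L + i) / 2) : ℝ) ≤ 2 ^ i * L.choose (L / 2) := by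
      exact_mod_cast choose_middle_add_le L i
    have h2 : bb L * 2 ^ (L + i) = 2 ^ i * L.choose (L / 2) := by
      unfold bb
      rw [pow_add]
      field_simp
    rw [h2]
    have : (0:ℝ) ≤ 2 ^ L := by positivity
    linarith
  · have h1 : (k.choose (k / 2) : ℝ) ≤ 2 ^ k := by
      exact_mod_cast Nat.choose_le_two_pow k (k / 2)
    have h2 : (2:ℝ) ^ k ≤ 2 ^ L := by
      apply pow_le_pow_right₀ (by norm_num) h
    have h3 : 0 ≤ bb L * 2 ^ k := mul_nonneg (bb_nonneg L) (by positivity)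
    linarith

theorem bb_even_sq (m : ℕ) : (bb (2 * m)) ^ 2 * (2 * m + 1) ≤ 1 := by
  have key : ∀ m : ℕ, ((m.centralBinom : ℝ)) ^ 2 * (2 * m + 1) ≤ (4 ^ m) ^ 2 := by
    intro m
    induction m with
    | zero => simp
    | succ m ih =>
      have h1 : ((m : ℝ) + 1) * ((m + 1).centralBinom : ℝ) = 2 * (2 * m + 1) * (m.centralBinom : ℝ) := by
        have := Nat.succ_mul_centralBinom_succ m
        exact_mod_cast this
      have hm : (0:ℝ) < (m:ℝ) + 1 := by positivity
      have h2 : (((m + 1).centralBinom : ℝ)) = 2 * (2 * m + 1) * (m.centralBinom : ℝ) / (m + 1) := by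
        field_simp
        linarith
      rw [h2]
      push_cast
      have e : (2 * (2 * (m:ℝ) + 1) * (m.centralBinom : ℝ) / (m + 1)) ^ 2 * (2 * ((m:ℝ) + 1) + 1)
        = ((m.centralBinom : ℝ) ^ 2 * (2 * m + 1)) * (4 * (2 * m + 1) * (2 * m + 3) / (m + 1) ^ 2) := by
        field_simp
        ring
      rw [e]
      have h3 : 4 * (2 * (m:ℝ) + 1) * (2 * m + 3) / (m + 1) ^ 2 ≤ 16 := by
        rw [div_le_iff₀ (by positivity)]
        nlinarith
      calc ((m.centralBinom : ℝ) ^ 2 * (2 * m + 1)) * (4 * (2 * m + 1) * (2 * m + 3) / (m + 1) ^ 2)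
          ≤ (4 ^ m) ^ 2 * 16 := by
            apply mul_le_mul ih h3 (by positivity) (by positivity)
        _ = (4 ^ (m + 1)) ^ 2 := by ring
  have h := key m
  unfold bb
  have e1 : ((2 * m).choose (2 * m / 2) : ℝ) = (m.centralBinom : ℝ) := by
    rw [Nat.mul_div_cancel_left m (by norm_num : 0 < 2), Nat.centralBinom]
  rw [e1, div_pow]
  have e2 : ((2:ℝ) ^ (2 * m)) = 4 ^ m := by rw [pow_mul]; norm_num
  rw [e2, div_mul_eq_mul_div, div_le_one (by positivity)]
  exact h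

theorem exists_bb_le (η : ℝ) (hη : 0 < η) : ∃ L : ℕ, bb L ≤ η := by
  obtain ⟨m, hm⟩ := exists_nat_gt (1 / η ^ 2)
  refine ⟨2 * m, ?_⟩
  have h := bb_even_sq m
  by_contra hc
  push Not at hc
  have h1 : η ^ 2 < (bb (2 * m)) ^ 2 := by
    apply pow_lt_pow_left₀ hc hη.le (by norm_num)
  have h2 : 1 < η ^ 2 * (2 * m + 1) := by
    rw [div_lt_iff₀ (by positivity)] at hm
    nlinarith [sq_nonneg η, pow_pos hη 2]
  have h3 : η ^ 2 * (2 * (m:ℝ) + 1) ≤ (bb (2 * m)) ^ 2 * (2 * m + 1) := by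
    gcongr
  linarith

/-- Product of distinct primes divides iff each divides. -/
theorem prod_dvd_iff {R : Finset ℕ} (hR : ∀ p ∈ R, p.Prime) (S : Finset ℕ) (hS : S ⊆ R) (m : ℕ) :
    (∏ p ∈ S, p) ∣ m ↔ ∀ p ∈ S, p ∣ m := by
  constructor
  · intro h p hp
    exact (Finset.dvd_prod_of_mem _ hp).trans h
  · intro h
    apply Finset.prod_primes_dvd
    · intro p hp
      exact (hR p (hS hp)).prime
    · exact h

theorem sperner_subsets (U : Finset ℕ) (𝒜 : Finset (Finset ℕ)) (h𝒜 : ∀ S ∈ 𝒜, S ⊆ U)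
    (hanti : ∀ S ∈ 𝒜, ∀ S' ∈ 𝒜, S ⊆ S' → S = S') :
    𝒜.card ≤ (U.card).choose (U.card / 2) := by
  classical
  let f : Finset ℕ → Finset {x // x ∈ U} := fun S => S.subtype (· ∈ U)
  have hf : ∀ S, S ⊆ U → (f S).map (Function.Embedding.subtype _) = S := by
    intro S hS
    ext x
    simp only [f, Finset.mem_map, Finset.mem_subtype, Function.Embedding.subtype_apply]
    constructor
    · rintro ⟨a, ha, rfl⟩
      exact ha
    · intro hx
      exact ⟨⟨x, hS hx⟩, hx, rfl⟩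
  have hinj : Set.InjOn f (𝒜 : Set (Finset ℕ)) := by
    intro S hS S' hS' h
    have h1 := hf S (h𝒜 S hS)
    have h2 := hf S' (h𝒜 S' hS')
    rw [← h1, ← h2, h]
  have hcard : (𝒜.image f).card = 𝒜.card := Finset.card_image_of_injOn hinj
  rw [← hcard]
  have hanti' : IsAntichain (· ⊆ ·) ((𝒜.image f : Finset (Finset {x // x ∈ U})) : Set (Finset {x // x ∈ U})) := by
    intro a ha b hb hab hsub
    simp only [Finset.coe_image, Set.mem_image, Finset.mem_coe] at ha hb
    obtain ⟨S, hS, rfl⟩ := ha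
    obtain ⟨S', hS', rfl⟩ := hb
    apply hab
    have : S ⊆ S' := by
      rw [← hf S (h𝒜 S hS), ← hf S' (h𝒜 S' hS')]
      exact Finset.map_subset_map.mpr hsub
    rw [hanti S hS S' hS' this]
  have := hanti'.sperner
  simpa using this

/-- Sperner bound for divisors `m / ∏ S` lying in a primitive set. -/
theorem sperner_card {R : Finset ℕ} (hR : ∀ p ∈ R, p.Prime) (A : Finset ℕ)
    (hA : ∀ a ∈ A, ∀ b ∈ A, a ∣ b → a = b) (m : ℕ) (hm : 0 < m) :
    ((R.powerset).filter (fun S => (∏ p ∈ S, p) ∣ m ∧ m / (∏ p ∈ S, p) ∈ A)).card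
      ≤ ((R.filter (· ∣ m)).card).choose ((R.filter (· ∣ m)).card / 2) := by
  classical
  apply sperner_subsets (R.filter (· ∣ m))
  · intro S hS
    simp only [Finset.mem_filter, Finset.mem_powerset] at hS
    intro p hp
    simp only [Finset.mem_filter]
    exact ⟨hS.1 hp, (Finset.dvd_prod_of_mem _ hp).trans hS.2.1⟩
  · intro S hS S' hS' hsub
    simp only [Finset.mem_filter, Finset.mem_powerset] at hS hS'
    have hpos : ∀ S : Finset ℕ, S ⊆ R → 0 < ∏ p ∈ S, p := fun S hS =>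
      Finset.prod_pos fun p hp => (hR p (hS hp)).pos
    have hdvd : (∏ p ∈ S, p) ∣ ∏ p ∈ S', p := Finset.prod_dvd_prod_of_subset _ _ _ hsub
    have h1 : m / (∏ p ∈ S', p) ∣ m / (∏ p ∈ S, p) :=
      Nat.div_dvd_div_left hS'.2.1 hdvd
    have h2 := hA _ hS'.2.2 _ hS.2.2 h1
    have h3 : (∏ p ∈ S, p) = ∏ p ∈ S', p := by
      have e1 := Nat.div_mul_cancel hS.2.1
      have e2 := Nat.div_mul_cancel hS'.2.1
      have hq : 0 < m / (∏ p ∈ S, p) := Nat.div_pos (Nat.le_of_dvd hm hS.2.1) (hpos S hS.1)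
      have : m / (∏ p ∈ S, p) * (∏ p ∈ S, p) = m / (∏ p ∈ S, p) * ∏ p ∈ S', p := by
        rw [e1, ← h2, e2]
      exact Nat.eq_of_mul_eq_mul_left hq this
    by_contra hne
    obtain ⟨q, hq, hq'⟩ : ∃ q ∈ S', q ∉ S := by
      by_contra hcon
      push Not at hcon
      exact hne (Finset.Subset.antisymm hsub hcon)
    have hqd : q ∣ ∏ p ∈ S, p := by
      rw [h3]
      exact Finset.dvd_prod_of_mem _ hq
    have hqp := hR q (hS'.1 hq)
    obtain ⟨p, hp, hqp'⟩ := (hqp.prime.dvd_finsetProd_iff _).1 hqd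
    have : q = p := (Nat.prime_dvd_prime_iff_eq hqp (hR p (hS.1 hp))).1 hqp'
    exact hq' (this ▸ hp)

end Pool.Agent.Lib.MP_def192_nt
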