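import Mathlib
import Pool.Agent.Lib.MP_def192_nt.Sperner

set_option autoImplicit false

namespace Pool.Agent.Lib.MP_def192_nt

open Finset

/-- weight `m^{-s}` -/
noncomputable def w (s : ℝ) (m : ℕ) : ℝ := (m : ℝ) ^ (-s)

/-- total weight of `[1,n]` -/
noncomputable def W (s : ℝ) (n : ℕ) : ℝ := ∑ m ∈ Icc 1 n, w s m

/-- weight of `A ∩ [1,x]` -/
noncomputable def G (s : ℝ) (A : Finset ℕ) (x : ℕ) : ℝ := ∑ a ∈ A.filter (· ≤ x), w s a

theorem w_nonneg (s : ℝ) (m : ℕ) : 0 ≤ w s m := by unfold w; positivity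

theorem w_pos (s : ℝ) {m : ℕ} (hm : 0 < m) : 0 < w s m := by
  unfold w; positivity

theorem w_mul (s : ℝ) (a b : ℕ) : w s (a * b) = w s a * w s b := by
  unfold w
  push_cast
  rw [Real.mul_rpow (by positivity) (by positivity)]

theorem W_nonneg (s : ℝ) (n : ℕ) : 0 ≤ W s n := Finset.sum_nonneg fun _ _ => w_nonneg _ _

theorem G_nonneg (s : ℝ) (A : Finset ℕ) (x : ℕ) : 0 ≤ G s A x :=
  Finset.sum_nonneg fun _ _ => w_nonneg _ _

theorem W_zero (s : ℝ) : W s 0 = 0 := by simp [W]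

theorem W_succ (s : ℝ) (n : ℕ) : W s (n + 1) = W s n + w s (n + 1) := by
  unfold W
  rw [Finset.sum_Icc_succ_top (by omega)]

theorem W_mono (s : ℝ) {m n : ℕ} (h : m ≤ n) : W s m ≤ W s n := by
  unfold W
  apply Finset.sum_le_sum_of_subset_of_nonneg
  · exact Finset.Icc_subset_Icc_right h
  · intros; exact w_nonneg _ _

theorem G_le_W (s : ℝ) (A : Finset ℕ) (hA : ∀ a ∈ A, 1 ≤ a) (x : ℕ) : G s A x ≤ W s x := by
  unfold G W
  apply Finset.sum_le_sum_of_subset_of_nonneg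
  · intro a ha
    simp only [Finset.mem_filter] at ha
    simp only [Finset.mem_Icc]
    exact ⟨hA a ha.1, ha.2⟩
  · intros; exact w_nonneg _ _

/-- mean value bounds: `m^{-s}` compared with differences of `x^{1-s}/(1-s)`. -/
theorem w_le_diff {s : ℝ} (hs0 : 0 ≤ s) (hs1 : s < 1) (m : ℕ) :
    w s (m + 1) ≤ (((m + 1 : ℕ) : ℝ) ^ (1 - s) - (m : ℝ) ^ (1 - s)) / (1 - s) := by
  have hu : 0 < 1 - s := by linarith
  have hx : (0:ℝ) < ((m + 1 : ℕ) : ℝ) := by positivity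
  rw [le_div_iff₀ hu]
  unfold w
  -- x^{u} - (x-1)^u ≥ u x^{u-1}
  have key : ((m : ℝ)) ^ (1 - s) ≤ ((m + 1 : ℕ) : ℝ) ^ (1 - s) - (1 - s) * ((m + 1 : ℕ) : ℝ) ^ (-s) := by
    have hb : (1 + (-1 / ((m + 1 : ℕ) : ℝ))) ^ (1 - s) ≤ 1 + (1 - s) * (-1 / ((m + 1 : ℕ) : ℝ)) := by
      apply rpow_one_add_le_one_add_mul_self
      · rw [neg_div]
        have : 1 / ((m + 1 : ℕ) : ℝ) ≤ 1 := by
          rw [div_le_one hx]
          exact_mod_cast Nat.succ_le_succ (Nat.zero_le m)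
        linarith
      · exact hu.le
      · linarith
    have e1 : (m : ℝ) = ((m + 1 : ℕ) : ℝ) * (1 + (-1 / ((m + 1 : ℕ) : ℝ))) := by
      field_simp
      push_cast
      ring
    have e2 : (0:ℝ) ≤ 1 + (-1 / ((m + 1 : ℕ) : ℝ)) := by
      rw [neg_div]
      have : 1 / ((m + 1 : ℕ) : ℝ) ≤ 1 := by
        rw [div_le_one hx]
        exact_mod_cast Nat.succ_le_succ (Nat.zero_le m)
      linarith
    calc (m : ℝ) ^ (1 - s) = (((m + 1 : ℕ) : ℝ) * (1 + (-1 / ((m + 1 : ℕ) : ℝ)))) ^ (1 - s) := by rw [← e1]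
      _ = ((m + 1 : ℕ) : ℝ) ^ (1 - s) * (1 + (-1 / ((m + 1 : ℕ) : ℝ))) ^ (1 - s) := by
          rw [Real.mul_rpow hx.le e2]
      _ ≤ ((m + 1 : ℕ) : ℝ) ^ (1 - s) * (1 + (1 - s) * (-1 / ((m + 1 : ℕ) : ℝ))) := by
          gcongr
      _ = ((m + 1 : ℕ) : ℝ) ^ (1 - s) - (1 - s) * (((m + 1 : ℕ) : ℝ) ^ (1 - s) / ((m + 1 : ℕ) : ℝ)) := by
          field_simp
          ring
      _ = ((m + 1 : ℕ) : ℝ) ^ (1 - s) - (1 - s) * ((m + 1 : ℕ) : ℝ) ^ (-s) := by
          congr 2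
          rw [show (-s) = (1 - s) - 1 by ring, Real.rpow_sub_one hx.ne']
  linarith

theorem diff_le_w {s : ℝ} (hs0 : 0 ≤ s) (hs1 : s < 1) (m : ℕ) (hm : 0 < m) :
    (((m + 1 : ℕ) : ℝ) ^ (1 - s) - (m : ℝ) ^ (1 - s)) / (1 - s) ≤ w s m := by
  have hu : 0 < 1 - s := by linarith
  have hx : (0:ℝ) < (m : ℝ) := by positivity
  rw [div_le_iff₀ hu]
  unfold w
  have hb : (1 + (1 / (m : ℝ))) ^ (1 - s) ≤ 1 + (1 - s) * (1 / (m : ℝ)) := by
    apply rpow_one_add_le_one_add_mul_self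
    · have : 0 ≤ 1 / (m : ℝ) := by positivity
      linarith
    · exact hu.le
    · linarith
  have e1 : ((m + 1 : ℕ) : ℝ) = (m : ℝ) * (1 + (1 / (m : ℝ))) := by
    push_cast
    field_simp
  calc ((m + 1 : ℕ) : ℝ) ^ (1 - s) - (m : ℝ) ^ (1 - s)
      = (m : ℝ) ^ (1 - s) * (1 + (1 / (m : ℝ))) ^ (1 - s) - (m : ℝ) ^ (1 - s) := by
        rw [e1, Real.mul_rpow hx.le (by positivity)]
    _ ≤ (m : ℝ) ^ (1 - s) * (1 + (1 - s) * (1 / (m : ℝ))) - (m : ℝ) ^ (1 - s) := by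
        gcongr
    _ = ((m : ℝ) ^ (1 - s) / m) * (1 - s) := by
        field_simp
        ring
    _ = (m : ℝ) ^ (-s) * (1 - s) := by
        congr 1
        rw [show (-s) = (1 - s) - 1 by ring, Real.rpow_sub_one hx.ne']

theorem W_le {s : ℝ} (hs0 : 0 ≤ s) (hs1 : s < 1) (n : ℕ) :
    W s n ≤ (n : ℝ) ^ (1 - s) / (1 - s) := by
  have hu : 0 < 1 - s := by linarith
  induction n with
  | zero => simp [W_zero, Real.zero_rpow hu.ne']
  | succ n ih =>
    rw [W_succ]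
    have := w_le_diff hs0 hs1 n
    rw [sub_div] at this
    linarith

theorem le_W {s : ℝ} (hs0 : 0 ≤ s) (hs1 : s < 1) (n : ℕ) :
    (((n + 1 : ℕ) : ℝ) ^ (1 - s) - 1) / (1 - s) ≤ W s n := by
  have hu : 0 < 1 - s := by linarith
  induction n with
  | zero => simp [W_zero]
  | succ n ih =>
    rw [W_succ]
    have := diff_le_w hs0 hs1 (n + 1) (by omega)
    rw [sub_div] at this ih ⊢
    linarith

theorem le_W' {s : ℝ} (hs0 : 0 ≤ s) (hs1 : s < 1) (n : ℕ) :
    ((n : ℝ) ^ (1 - s) - 1) / (1 - s) ≤ W s n := by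
  have hu : 0 < 1 - s := by linarith
  refine le_trans ?_ (le_W hs0 hs1 n)
  apply div_le_div_of_nonneg_right _ hu.le
  apply sub_le_sub_right
  apply Real.rpow_le_rpow (by positivity) (by push_cast; linarith) hu.le

/-- crude lower bound `W s n ≥ n^{1-s}` -/
theorem rpow_le_W {s : ℝ} (hs0 : 0 ≤ s) (n : ℕ) (hn : 0 < n) :
    (n : ℝ) ^ (1 - s) ≤ W s n := by
  have hn' : (0:ℝ) < n := by positivity
  have : ∀ m ∈ Icc 1 n, (n : ℝ) ^ (-s) ≤ w s m := by
    intro m hm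
    simp only [Finset.mem_Icc] at hm
    unfold w
    apply Real.rpow_le_rpow_of_nonpos
    · exact_mod_cast hm.1
    · exact_mod_cast hm.2
    · linarith
  have h2 := Finset.sum_le_sum this
  rw [Finset.sum_const, Nat.card_Icc] at h2
  simp only [Nat.add_sub_cancel, nsmul_eq_mul] at h2
  calc (n : ℝ) ^ (1 - s) = (n : ℝ) * (n : ℝ) ^ (-s) := by
        rw [show (1 - s) = 1 + (-s) by ring, Real.rpow_add hn', Real.rpow_one]
    _ ≤ W s n := h2

theorem W_pos {s : ℝ} (hs0 : 0 ≤ s) {n : ℕ} (hn : 0 < n) : 0 < W s n :=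
  lt_of_lt_of_le (by positivity) (rpow_le_W hs0 n hn)

/-- sum over multiples -/
theorem sum_multiples (s : ℝ) (n j : ℕ) (hj : 0 < j) :
    ∑ m ∈ (Icc 1 n).filter (j ∣ ·), w s m = w s j * W s (n / j) := by
  unfold W
  rw [Finset.mul_sum]
  symm
  apply Finset.sum_bij (fun i _ => j * i)
  · intro i hi
    simp only [Finset.mem_Icc] at hi
    simp only [Finset.mem_filter, Finset.mem_Icc]
    refine ⟨⟨?_, ?_⟩, Dvd.intro _ rfl⟩
    · exact Nat.mul_pos hj hi.1
    · calc j * i ≤ j * (n / j) := by gcongr; exact hi.2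
        _ ≤ n := Nat.mul_div_le n j
  · intro a _ b _ h
    exact Nat.eq_of_mul_eq_mul_left hj h
  · intro b hb
    simp only [Finset.mem_filter, Finset.mem_Icc] at hb
    obtain ⟨i, rfl⟩ := hb.2
    refine ⟨i, ?_, rfl⟩
    simp only [Finset.mem_Icc]
    refine ⟨?_, ?_⟩
    · rcases Nat.eq_zero_or_pos i with h | h
      · subst h; simp at hb
      · exact h
    · rw [Nat.le_div_iff_mul_le hj]
      linarith [hb.1.2, mul_comm i j]
  · intro i _
    rw [w_mul]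

/-- The main Sperner type inequality. -/
theorem sperner_ineq {R : Finset ℕ} (hR : ∀ p ∈ R, p.Prime) (A : Finset ℕ)
    (hA1 : ∀ a ∈ A, 1 ≤ a)
    (hA : ∀ a ∈ A, ∀ b ∈ A, a ∣ b → a = b) (s : ℝ) (L n : ℕ) :
    ∑ S ∈ R.powerset, w s (∏ p ∈ S, p) * G s A (n / (∏ p ∈ S, p))
      ≤ 2 ^ L * W s n + bb L * ∑ S ∈ R.powerset, w s (∏ p ∈ S, p) * W s (n / (∏ p ∈ S, p)) := by
  classical
  have hpos : ∀ S ∈ R.powerset, 0 < ∏ p ∈ S, p := fun S hS =>
      Finset.prod_pos fun p hp => (hR p (Finset.mem_powerset.1 hS hp)).pos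
  -- left side as a double sum
  have hL : ∑ S ∈ R.powerset, w s (∏ p ∈ S, p) * G s A (n / (∏ p ∈ S, p))
      = ∑ m ∈ Icc 1 n, w s m *
        ((R.powerset).filter (fun S => (∏ p ∈ S, p) ∣ m ∧ m / (∏ p ∈ S, p) ∈ A)).card := by
    have h1 : ∀ m ∈ Icc 1 n, w s m *
        (((R.powerset).filter (fun S => (∏ p ∈ S, p) ∣ m ∧ m / (∏ p ∈ S, p) ∈ A)).card : ℝ)
        = ∑ S ∈ R.powerset, if ((∏ p ∈ S, p) ∣ m ∧ m / (∏ p ∈ S, p) ∈ A) then w s m else 0 := by
      intro m _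
      rw [← Finset.sum_filter, Finset.sum_const, nsmul_eq_mul, mul_comm]
    rw [Finset.sum_congr rfl h1, Finset.sum_comm]
    apply Finset.sum_congr rfl
    intro S hS
    have hj := hpos S hS
    set j := ∏ p ∈ S, p with hjdef
    unfold G
    rw [Finset.mul_sum, ← Finset.sum_filter]
    apply Finset.sum_bij (fun a _ => j * a)
    · intro a ha
      simp only [Finset.mem_filter] at ha
      simp only [Finset.mem_filter, Finset.mem_Icc]
      refine ⟨⟨Nat.mul_pos hj (hA1 a ha.1), ?_⟩, Dvd.intro _ rfl, ?_⟩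
      · calc j * a ≤ j * (n / j) := by gcongr; exact ha.2
          _ ≤ n := Nat.mul_div_le n j
      · rw [Nat.mul_div_cancel_left _ hj]
        exact ha.1
    · intro a _ b _ h
      exact Nat.eq_of_mul_eq_mul_left hj h
    · intro b hb
      simp only [Finset.mem_filter, Finset.mem_Icc] at hb
      obtain ⟨hb1, ⟨i, rfl⟩, hb3⟩ := hb
      rw [Nat.mul_div_cancel_left _ hj] at hb3
      refine ⟨i, ?_, rfl⟩
      simp only [Finset.mem_filter]
      refine ⟨hb3, ?_⟩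
      rw [Nat.le_div_iff_mul_le hj]
      linarith [hb1.2, mul_comm i j]
    · intro a _
      rw [w_mul]
  rw [hL]
  have hcount : ∀ m : ℕ, (2:ℝ) ^ (R.filter (· ∣ m)).card
      = ∑ S ∈ R.powerset, if (∏ p ∈ S, p) ∣ m then (1:ℝ) else 0 := by
    intro m
    rw [← Finset.sum_filter, Finset.sum_const, nsmul_eq_mul, mul_one]
    have : (R.powerset).filter (fun S => (∏ p ∈ S, p) ∣ m) = (R.filter (· ∣ m)).powerset := by
      ext S
      simp only [Finset.mem_filter, Finset.mem_powerset]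
      constructor
      · rintro ⟨h1, h2⟩
        intro p hp
        simp only [Finset.mem_filter]
        exact ⟨h1 hp, (Finset.dvd_prod_of_mem _ hp).trans h2⟩
      · intro h
        have h1 : S ⊆ R := h.trans (Finset.filter_subset _ _)
        refine ⟨h1, ?_⟩
        rw [prod_dvd_iff hR S h1]
        intro p hp
        exact (Finset.mem_filter.1 (h hp)).2
    rw [this, Finset.card_powerset]
    push_cast
    rfl
  have hbound : ∀ m ∈ Icc 1 n, w s m *
        (((R.powerset).filter (fun S => (∏ p ∈ S, p) ∣ m ∧ m / (∏ p ∈ S, p) ∈ A)).card : ℝ)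
        ≤ w s m * 2 ^ L + bb L * (w s m * 2 ^ (R.filter (· ∣ m)).card) := by
    intro m hm
    simp only [Finset.mem_Icc] at hm
    have h1 := sperner_card hR A hA m (by omega)
    have h2 := choose_middle_le L (R.filter (· ∣ m)).card
    have h3 : (((R.powerset).filter (fun S => (∏ p ∈ S, p) ∣ m ∧ m / (∏ p ∈ S, p) ∈ A)).card : ℝ)
        ≤ 2 ^ L + bb L * 2 ^ (R.filter (· ∣ m)).card := le_trans (by exact_mod_cast h1) h2
    calc _ ≤ w s m * (2 ^ L + bb L * 2 ^ (R.filter (· ∣ m)).card) := by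
            apply mul_le_mul_of_nonneg_left h3 (w_nonneg _ _)
      _ = _ := by ring
  refine le_trans (Finset.sum_le_sum hbound) ?_
  rw [Finset.sum_add_distrib, ← Finset.sum_mul, ← Finset.mul_sum]
  apply le_of_eq
  congr 1
  · rw [mul_comm]; rfl
  · congr 1
    simp_rw [hcount, Finset.mul_sum]
    rw [Finset.sum_comm]
    apply Finset.sum_congr rfl
    intro S hS
    rw [← sum_multiples s n _ (hpos S hS), Finset.sum_filter]
    apply Finset.sum_congr rfl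
    intro m _
    split_ifs <;> simp

end Pool.Agent.Lib.MP_def192_nt
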