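import Mathlib
import Pool.Agent.Lib.MP_def192_nt.Weights

set_option autoImplicit false

namespace Pool.Agent.Lib.MP_def192_nt

open Finset

/-- primitive finite set -/
def Prim (A : Finset ℕ) : Prop := ∀ a ∈ A, ∀ b ∈ A, a ∣ b → a = b

theorem Prim.filter {A : Finset ℕ} (h : Prim A) (p : ℕ → Prop) [DecidablePred p] :
    Prim (A.filter p) := fun a ha b hb hab =>
  h a (Finset.mem_filter.1 ha).1 b (Finset.mem_filter.1 hb).1 hab

/-- telescoping -/
theorem telescope (h : ℕ → ℝ) {a n : ℕ} (han : a ≤ n) :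
    ∑ j ∈ Ico a n, (h (j + 1) - h j) = h n - h a := by
  induction n, han using Nat.le_induction with
  | base => simp
  | succ n hn ih => rw [Finset.sum_Ico_succ_top hn, ih]; ring

theorem abel (g h : ℕ → ℝ) (n : ℕ) (A : Finset ℕ) (hA : A ⊆ Icc 1 n) :
    ∑ a ∈ A, g a * h a = h n * ∑ a ∈ A, g a
      - ∑ j ∈ Ico 1 n, (h (j + 1) - h j) * ∑ a ∈ A.filter (· ≤ j), g a := by
  have h1 : ∀ a ∈ A, g a * h a = h n * g a - ∑ j ∈ Ico 1 n, if a ≤ j then (h (j + 1) - h j) * g a else 0 := by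
    intro a ha
    have ha' := Finset.mem_Icc.1 (hA ha)
    have : ∑ j ∈ Ico 1 n, (if a ≤ j then (h (j + 1) - h j) * g a else 0)
        = ∑ j ∈ Ico a n, (h (j + 1) - h j) * g a := by
      rw [← Finset.sum_filter]
      apply Finset.sum_congr
      · ext j
        simp only [Finset.mem_filter, Finset.mem_Ico]
        omega
      · intros; rfl
    rw [this, ← Finset.sum_mul, telescope h ha'.2]
    ring
  rw [Finset.sum_congr rfl h1, Finset.sum_sub_distrib, ← Finset.mul_sum, Finset.sum_comm]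
  congr 1
  apply Finset.sum_congr rfl
  intro j _
  rw [Finset.mul_sum, Finset.sum_filter]

theorem sum_div_le (f : ℕ → ℝ) (hf : ∀ i, 0 ≤ f i) (n j : ℕ) (hj : 0 < j) :
    ∑ x ∈ range n, f (x / j) ≤ j * ∑ i ∈ range n, f i := by
  classical
  have h1 : ∑ x ∈ range n, f (x / j) = ∑ i ∈ range n, ∑ x ∈ (range n).filter (fun x => x / j = i), f (x / j) := by
    rw [Finset.sum_fiberwise_of_maps_to]
    intro x hx
    simp only [Finset.mem_range] at hx ⊢
    exact lt_of_le_of_lt (Nat.div_le_self x j) hx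
  rw [h1, Finset.mul_sum]
  apply Finset.sum_le_sum
  intro i _
  have h2 : ∑ x ∈ (range n).filter (fun x => x / j = i), f (x / j)
      = ∑ x ∈ (range n).filter (fun x => x / j = i), f i := by
    apply Finset.sum_congr rfl
    intro x hx
    rw [(Finset.mem_filter.1 hx).2]
  rw [h2, Finset.sum_const, nsmul_eq_mul]
  apply mul_le_mul_of_nonneg_right _ (hf i)
  have h3 : ((range n).filter (fun x => x / j = i)) ⊆ Ico (i * j) (i * j + j) := by
    intro x hx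
    simp only [Finset.mem_filter, Finset.mem_range, Finset.mem_Ico] at hx ⊢
    obtain ⟨_, rfl⟩ := hx
    constructor
    · exact Nat.div_mul_le_self x j
    · have := Nat.lt_div_mul_add hj (a := x)
      linarith
  have h4 := Finset.card_le_card h3
  rw [Nat.card_Ico] at h4
  have h5 : i * j + j - i * j = j := by omega
  rw [h5] at h4
  exact_mod_cast h4

theorem exists_primes (K : ℝ) : ∃ R : Finset ℕ, (∀ p ∈ R, p.Prime) ∧
    K ≤ ∑ S ∈ R.powerset, ((∏ p ∈ S, p : ℕ) : ℝ)⁻¹ := by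
  classical
  have h := not_summable_one_div_on_primes
  have h1 : ¬ ∃ c, ∀ u : Finset ℕ, ∑ x ∈ u, (Set.indicator {p : ℕ | p.Prime} (fun n : ℕ => (1:ℝ) / n)) x ≤ c := by
    rintro ⟨c, hc⟩
    apply h
    apply summable_of_sum_le _ hc
    intro n
    apply Set.indicator_nonneg
    intro x _
    positivity
  push Not at h1
  obtain ⟨u, hu⟩ := h1 K
  refine ⟨u.filter Nat.Prime, fun p hp => (Finset.mem_filter.1 hp).2, ?_⟩
  have h2 : ∑ x ∈ u, (Set.indicator {p : ℕ | p.Prime} (fun n : ℕ => (1:ℝ) / n)) x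
      = ∑ p ∈ u.filter Nat.Prime, ((p : ℝ))⁻¹ := by
    rw [Finset.sum_filter]
    apply Finset.sum_congr rfl
    intro x _
    simp [Set.indicator_apply]
  rw [h2] at hu
  refine hu.le.trans ?_
  have h3 : ∑ p ∈ u.filter Nat.Prime, ((p : ℝ))⁻¹
      = ∑ S ∈ (u.filter Nat.Prime).image (fun p => ({p} : Finset ℕ)), ((∏ p ∈ S, p : ℕ) : ℝ)⁻¹ := by
    rw [Finset.sum_image]
    · simp
    · intro a _ b _ hab
      simpa using hab
  rw [h3]
  apply Finset.sum_le_sum_of_subset_of_nonneg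
  · intro S hS
    simp only [Finset.mem_image] at hS
    obtain ⟨p, hp, rfl⟩ := hS
    simp only [Finset.mem_powerset, Finset.singleton_subset_iff]
    exact hp
  · intros; positivity

theorem sum_rpow_ge {u : ℝ} (hu0 : 0 < u) (hu1 : u ≤ 1) (n : ℕ) (hn : 2 ≤ n) :
    (n : ℝ) ^ (1 + u) / 4 ≤ ∑ x ∈ range n, (x : ℝ) ^ u := by
  have hn0 : (0:ℝ) < n := by positivity
  have h1 : ∀ x ∈ range n, (n : ℝ) ^ u * ((x : ℝ) / n) ≤ (x : ℝ) ^ u := by
    intro x hx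
    have hx' : (x : ℝ) ≤ n := by exact_mod_cast (Finset.mem_range.1 hx).le
    have h2 : (x : ℝ) / n ≤ ((x : ℝ) / n) ^ u := by
      rcases Nat.eq_zero_or_pos x with h | h
      · subst h; simp [Real.zero_rpow hu0.ne']
      · have hx0 : (0:ℝ) < x := by positivity
        calc (x : ℝ) / n = ((x : ℝ) / n) ^ (1:ℝ) := (Real.rpow_one _).symm
          _ ≤ ((x : ℝ) / n) ^ u := by
            apply Real.rpow_le_rpow_of_exponent_ge (by positivity) _ hu1
            rw [div_le_one hn0]; exact hx'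
    calc (n : ℝ) ^ u * ((x : ℝ) / n) ≤ (n : ℝ) ^ u * ((x : ℝ) / n) ^ u := by gcongr
      _ = ((n : ℝ) * ((x : ℝ) / n)) ^ u := by rw [Real.mul_rpow hn0.le (by positivity)]
      _ = (x : ℝ) ^ u := by congr 1; field_simp
  refine le_trans ?_ (Finset.sum_le_sum h1)
  rw [← Finset.mul_sum, ← Finset.sum_div]
  have h3 : ∑ x ∈ range n, (x : ℝ) = (n : ℝ) * (n - 1) / 2 := by
    have := Finset.sum_range_id_mul_two n
    have h4 : (((∑ i ∈ range n, i) * 2 : ℕ) : ℝ) = ((n * (n - 1) : ℕ) : ℝ) := by rw [this]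
    push_cast [Nat.cast_sub (by omega : 1 ≤ n)] at h4
    linarith
  rw [h3, Real.rpow_add hn0, Real.rpow_one]
  have h5 : (2:ℝ) ≤ n := by exact_mod_cast hn
  have h6 : (n : ℝ) / 4 ≤ ((n : ℝ) * (n - 1) / 2 / n) := by
    rw [div_div, le_div_iff₀ (by positivity)]
    nlinarith
  calc (n : ℝ) * (n : ℝ) ^ u / 4 = (n : ℝ) ^ u * (n / 4) := by ring
    _ ≤ _ := by gcongr

theorem gain {s1 s2 C : ℝ} (h0 : 0 ≤ s1) (h12 : s1 < s2) (h2lt : s2 < 1) (hC : 0 < C) :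
    ∃ c > 0, ∃ ε > 0, ε < C ∧ ∀ N0 : ℕ,
      (∀ j ≥ N0, ∀ A : Finset ℕ, A ⊆ Icc 1 j → Prim A → ∑ a ∈ A, w s2 a ≤ (C + ε) * W s2 j) →
      ∃ N1 : ℕ, ∀ n ≥ N1, ∀ A : Finset ℕ, A ⊆ Icc 1 n → Prim A →
        (C - ε) * W s2 n ≤ ∑ a ∈ A, w s2 a → (C + c) * W s1 n ≤ ∑ a ∈ A, w s1 a := by
  classical
  obtain ⟨L, hL⟩ := exists_bb_le (C / 2) (by positivity)
  obtain ⟨R, hR, hRK⟩ := exists_primes ((2 ^ L + 1) / (C / 2))
  set δ := s2 - s1 with hδ
  set u := 1 - s2 with hu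
  set u1 := 1 - s1 with hu1
  have hδ0 : 0 < δ := by linarith
  have hδ1 : δ < 1 := by linarith
  have hu0 : 0 < u := by linarith
  have hul1 : u ≤ 1 := by linarith
  have hu10 : 0 < u1 := by linarith
  have hs2 : 0 ≤ s2 := by linarith
  have hpos : ∀ S ∈ R.powerset, 0 < ∏ p ∈ S, p := fun S hS =>
      Finset.prod_pos fun p hp => (hR p (Finset.mem_powerset.1 hS hp)).pos
  set Q : ℝ := ∑ S ∈ R.powerset, ((∏ p ∈ S, p : ℕ) : ℝ) with hQ
  have hQ1 : 1 ≤ Q := by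
    have : ((∏ p ∈ (∅ : Finset ℕ), p : ℕ) : ℝ) ≤ Q := by
      rw [hQ]
      apply Finset.single_le_sum (f := fun S => ((∏ p ∈ S, p : ℕ) : ℝ))
      · intros; positivity
      · simp
    simpa using this
  have hQ0 : 0 < Q := by linarith
  set P1 : ℝ := ∑ S ∈ R.powerset, ((∏ p ∈ S, p : ℕ) : ℝ)⁻¹ with hP1
  set K1 : ℝ := (∑ S ∈ R.powerset, w s2 (∏ p ∈ S, p)) / u with hK1
  have hK1nn : 0 ≤ K1 := div_nonneg (Finset.sum_nonneg fun _ _ => w_nonneg _ _) hu0.le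
  set K2 : ℝ := C * K1 with hK2
  have hK2nn : 0 ≤ K2 := by positivity
  set κ : ℝ := δ / (4 * u * Q) with hκ
  have hκ0 : 0 < κ := by positivity
  refine ⟨κ * u1 / 4, by positivity, min (κ * u / 4) (C / 2), by positivity, ?_, ?_⟩
  · exact lt_of_le_of_lt (min_le_right _ _) (by linarith)
  set ε := min (κ * u / 4) (C / 2) with hε
  have hε0 : 0 < ε := by positivity
  have hεle : ε ≤ κ * u / 4 := min_le_left _ _
  intro N0 hN0
  set K0 : ℝ := W s2 N0 with hK0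
  have hK0nn : 0 ≤ K0 := W_nonneg _ _
  -- choose N1
  have hlim : ∃ N1 : ℕ, 2 ≤ N1 ∧ ∀ n : ℕ, N1 ≤ n →
      (δ * K2 / Q + δ * K0 + K0) ≤ (κ / 4) * (n : ℝ) ^ u := by
    have ht : Filter.Tendsto (fun n : ℕ => (κ / 4) * (n : ℝ) ^ u) Filter.atTop Filter.atTop := by
      apply Filter.Tendsto.const_mul_atTop (by positivity)
      exact (tendsto_rpow_atTop hu0).comp tendsto_natCast_atTop_atTop
    obtain ⟨N, hN⟩ := Filter.eventually_atTop.1 (ht.eventually_ge_atTop (δ * K2 / Q + δ * K0 + K0))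
    exact ⟨max N 2, le_max_right _ _, fun n hn => hN n (le_trans (le_max_left _ _) hn)⟩
  obtain ⟨N1, hN12, hN1⟩ := hlim
  refine ⟨N1, ?_⟩
  intro n hn A hA hprim hAopt
  have hn2 : 2 ≤ n := le_trans hN12 hn
  have hn0 : (0:ℝ) < n := by positivity
  have hn1 : (1:ℝ) ≤ n := by exact_mod_cast (by omega : 1 ≤ n)
  have hA1 : ∀ a ∈ A, 1 ≤ a := fun a ha => (Finset.mem_Icc.1 (hA ha)).1
  set D : ℕ → ℝ := fun j => C * W s2 j - G s2 A j with hD
  set f : ℕ → ℝ := fun j => D j + ε * W s2 j + K0 with hf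
  have hfnn : ∀ j, 0 ≤ f j := by
    intro j
    rcases le_or_gt N0 j with h | h
    · have h1 := hN0 j h (A.filter (· ≤ j)) (by
        intro a ha
        simp only [Finset.mem_filter] at ha
        simp only [Finset.mem_Icc]
        exact ⟨hA1 a ha.1, ha.2⟩) (hprim.filter _)
      have h2 : G s2 A j ≤ (C + ε) * W s2 j := h1
      simp only [hf, hD]
      nlinarith
    · have h1 := G_le_W s2 A hA1 j
      have h2 : W s2 j ≤ K0 := W_mono s2 h.le
      have h3 := W_nonneg s2 j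
      simp only [hf, hD]
      have h4 : 0 ≤ C * W s2 j := by positivity
      have h5 : 0 ≤ ε * W s2 j := by positivity
      linarith
  have hfD : ∀ j, D j ≤ f j := by
    intro j
    simp only [hf]
    have h5 : 0 ≤ ε * W s2 j := mul_nonneg hε0.le (W_nonneg _ _)
    linarith
  -- Sperner lower bound at scale x
  have hSp : ∀ x : ℕ, (x : ℝ) ^ u / u - K2 ≤ ∑ S ∈ R.powerset, w s2 (∏ p ∈ S, p) * f (x / ∏ p ∈ S, p) := by
    intro x
    have h1 := sperner_ineq hR A hA1 hprim s2 L x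
    have h2 : ∑ S ∈ R.powerset, w s2 (∏ p ∈ S, p) * D (x / ∏ p ∈ S, p)
        ≤ ∑ S ∈ R.powerset, w s2 (∏ p ∈ S, p) * f (x / ∏ p ∈ S, p) := by
      apply Finset.sum_le_sum
      intro S _
      exact mul_le_mul_of_nonneg_left (hfD _) (w_nonneg _ _)
    refine le_trans ?_ h2
    have h3 : ∑ S ∈ R.powerset, w s2 (∏ p ∈ S, p) * D (x / ∏ p ∈ S, p)
        = C * ∑ S ∈ R.powerset, w s2 (∏ p ∈ S, p) * W s2 (x / ∏ p ∈ S, p)
          - ∑ S ∈ R.powerset, w s2 (∏ p ∈ S, p) * G s2 A (x / ∏ p ∈ S, p) := by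
      rw [Finset.mul_sum, ← Finset.sum_sub_distrib]
      apply Finset.sum_congr rfl
      intro S _
      simp only [hD]
      ring
    rw [h3]
    set Z := ∑ S ∈ R.powerset, w s2 (∏ p ∈ S, p) * W s2 (x / ∏ p ∈ S, p) with hZ
    have hZ1 : (x : ℝ) ^ u / u * P1 - K1 ≤ Z := by
      rw [hP1, hK1, hZ, Finset.mul_sum, Finset.sum_div, ← Finset.sum_sub_distrib]
      apply Finset.sum_le_sum
      intro S hS
      have hj := hpos S hS
      set j := ∏ p ∈ S, p with hj'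
      have hjR : (0:ℝ) < j := by positivity
      have h4 := le_W hs2 h2lt (x / j)
      have h5 : ((x : ℝ) / j) ^ u ≤ (((x / j : ℕ) + 1 : ℕ) : ℝ) ^ u := by
        apply Real.rpow_le_rpow (by positivity) _ hu0.le
        rw [div_le_iff₀ hjR]
        have h6 : x ≤ (x / j + 1) * j := by
          have := Nat.lt_div_mul_add hj (a := x)
          nlinarith
        exact_mod_cast h6
      have h7 : (((x : ℝ) / j) ^ u - 1) / u ≤ W s2 (x / j) := by
        refine le_trans ?_ h4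
        apply div_le_div_of_nonneg_right _ hu0.le
        linarith
      calc (x : ℝ) ^ u / u * (j : ℝ)⁻¹ - w s2 j / u
          = w s2 j * ((((x : ℝ) / j) ^ u - 1) / u) := by
            unfold w
            rw [Real.div_rpow (by positivity) (by positivity)]
            have e1 : (j : ℝ)⁻¹ = (j : ℝ) ^ (-s2) / (j : ℝ) ^ u := by
              rw [← Real.rpow_sub hjR, hu]
              rw [show -s2 - (1 - s2) = -1 by ring, Real.rpow_neg_one]
            rw [e1]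
            field_simp
        _ ≤ w s2 j * W s2 (x / j) := mul_le_mul_of_nonneg_left h7 (w_nonneg _ _)
    have hZ0 : 0 ≤ Z := Finset.sum_nonneg fun _ _ => mul_nonneg (w_nonneg _ _) (W_nonneg _ _)
    have hW := W_le hs2 h2lt x
    have hP : (2 ^ L + 1 : ℝ) ≤ (C / 2) * P1 := by
      rw [div_le_iff₀ (by positivity)] at hRK
      linarith
    have hxu : 0 ≤ (x : ℝ) ^ u / u := by positivity
    have h8 : (C / 2) * Z ≤ C * Z - bb L * Z := by nlinarith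
    have h9 : (x : ℝ) ^ u / u * (2 ^ L + 1) ≤ (x : ℝ) ^ u / u * ((C / 2) * P1) := by gcongr
    have h10 : (C/2) * ((x : ℝ) ^ u / u * P1 - K1) ≤ (C/2) * Z := by gcongr
    have h11 : (2:ℝ) ^ L * W s2 x ≤ 2 ^ L * ((x : ℝ) ^ u / u) := by gcongr
    have h12 : (C / 2) * K1 ≤ K2 := by
      rw [hK2]
      have : 0 ≤ C * K1 := by positivity
      linarith
    clear_value Z P1 K1 K2
    linarith
  -- sum over x
  have hsum : (n : ℝ) ^ (1 + u) / (4 * u) - K2 * n ≤ Q * ∑ i ∈ range n, f i := by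
    have h1 : ∑ x ∈ range n, ((x : ℝ) ^ u / u - K2)
        ≤ ∑ x ∈ range n, ∑ S ∈ R.powerset, w s2 (∏ p ∈ S, p) * f (x / ∏ p ∈ S, p) :=
      Finset.sum_le_sum fun x _ => hSp x
    have h2 : ∑ x ∈ range n, ∑ S ∈ R.powerset, w s2 (∏ p ∈ S, p) * f (x / ∏ p ∈ S, p)
        ≤ Q * ∑ i ∈ range n, f i := by
      rw [Finset.sum_comm, hQ, Finset.sum_mul]
      apply Finset.sum_le_sum
      intro S hS
      have hj := hpos S hS
      set j := ∏ p ∈ S, p with hj'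
      rw [← Finset.mul_sum]
      have h3 := sum_div_le f hfnn n j hj
      have h4 : w s2 j ≤ 1 := by
        unfold w
        apply Real.rpow_le_one_of_one_le_of_nonpos
        · exact_mod_cast hj
        · linarith
      have h5 : 0 ≤ ∑ x ∈ range n, f (x / j) := Finset.sum_nonneg fun _ _ => hfnn _
      calc w s2 j * ∑ x ∈ range n, f (x / j) ≤ 1 * ∑ x ∈ range n, f (x / j) := by gcongr
        _ ≤ _ := by rw [one_mul]; exact h3
    have h3 : ∑ x ∈ range n, ((x : ℝ) ^ u / u - K2) = (∑ x ∈ range n, (x : ℝ) ^ u) / u - K2 * n := by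
      rw [Finset.sum_sub_distrib, Finset.sum_div, Finset.sum_const, Finset.card_range, nsmul_eq_mul]
      ring
    have h4 := sum_rpow_ge hu0 hul1 n hn2
    have h5 : (n : ℝ) ^ (1 + u) / (4 * u) ≤ (∑ x ∈ range n, (x : ℝ) ^ u) / u := by
      rw [show (n : ℝ) ^ (1 + u) / (4 * u) = ((n : ℝ) ^ (1 + u) / 4) / u by rw [div_div]]
      gcongr
    linarith
  -- remove i = 0
  have hf0 : f 0 = K0 := by
    simp only [hf, hD, W_zero]
    have : G s2 A 0 = 0 := by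
      unfold G
      apply Finset.sum_eq_zero
      intro a ha
      simp only [Finset.mem_filter] at ha
      have := hA1 a ha.1
      omega
    rw [this]; ring
  have hsplit : ∑ i ∈ range n, f i = f 0 + ∑ i ∈ Ico 1 n, f i := by
    rw [Finset.range_eq_Ico, Finset.sum_eq_sum_Ico_succ_bot (by omega)]
  -- Abel summation
  have hw12 : ∀ a : ℕ, 1 ≤ a → w s1 a = w s2 a * (a : ℝ) ^ δ := by
    intro a ha
    have ha' : (0:ℝ) < a := by exact_mod_cast ha
    unfold w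
    rw [← Real.rpow_add ha', hδ]
    congr 1
    ring
  have hAb1 : ∑ a ∈ A, w s1 a = (n : ℝ) ^ δ * ∑ a ∈ A, w s2 a
      - ∑ j ∈ Ico 1 n, ((((j + 1 : ℕ) : ℝ)) ^ δ - (j : ℝ) ^ δ) * G s2 A j := by
    rw [Finset.sum_congr rfl (fun a ha => hw12 a (hA1 a ha))]
    exact abel (w s2) (fun a => (a : ℝ) ^ δ) n A hA
  have hAb2 : W s1 n = (n : ℝ) ^ δ * W s2 n
      - ∑ j ∈ Ico 1 n, ((((j + 1 : ℕ) : ℝ)) ^ δ - (j : ℝ) ^ δ) * W s2 j := by
    have h1 : W s1 n = ∑ a ∈ Icc 1 n, w s2 a * (a : ℝ) ^ δ := by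
      unfold W
      apply Finset.sum_congr rfl
      intro a ha
      exact hw12 a (Finset.mem_Icc.1 ha).1
    rw [h1, abel (w s2) (fun a => (a : ℝ) ^ δ) n (Icc 1 n) (Finset.Subset.refl _)]
    congr 1
    apply Finset.sum_congr rfl
    intro j hj
    have hj' := Finset.mem_Ico.1 hj
    congr 1
    unfold W
    apply Finset.sum_congr _ (fun _ _ => rfl)
    ext a
    simp only [Finset.mem_filter, Finset.mem_Icc]
    omega
  have hΔ : ∀ j ∈ Ico 1 n, δ * (n : ℝ) ^ (δ - 1) ≤ (((j + 1 : ℕ) : ℝ)) ^ δ - (j : ℝ) ^ δ := by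
    intro j hj
    have hj' := Finset.mem_Ico.1 hj
    have h1 := w_le_diff (s := 1 - δ) (by linarith) (by linarith) j
    rw [show 1 - (1 - δ) = δ by ring, le_div_iff₀ hδ0] at h1
    unfold w at h1
    rw [show -(1 - δ) = δ - 1 by ring] at h1
    have h2 : (n : ℝ) ^ (δ - 1) ≤ ((j + 1 : ℕ) : ℝ) ^ (δ - 1) := by
      apply Real.rpow_le_rpow_of_nonpos (by positivity) _ (by linarith)
      exact_mod_cast hj'.2
    nlinarith
  have hΔ0 : ∀ j ∈ Ico 1 n, 0 ≤ (((j + 1 : ℕ) : ℝ)) ^ δ - (j : ℝ) ^ δ := by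
    intro j hj
    refine le_trans ?_ (hΔ j hj)
    positivity
  have hΔsum : ∑ j ∈ Ico 1 n, ((((j + 1 : ℕ) : ℝ)) ^ δ - (j : ℝ) ^ δ) ≤ (n : ℝ) ^ δ := by
    have := telescope (fun j : ℕ => (j : ℝ) ^ δ) (a := 1) (n := n) (by omega)
    rw [this]
    simp
  -- combination
  have hG : ∑ a ∈ A, w s2 a = G s2 A n := by
    unfold G
    rw [Finset.filter_true_of_mem]
    intro a ha
    exact (Finset.mem_Icc.1 (hA ha)).2
  have hmain : ∑ a ∈ A, w s1 a - C * W s1 n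
      = - (n : ℝ) ^ δ * D n + ∑ j ∈ Ico 1 n, ((((j + 1 : ℕ) : ℝ)) ^ δ - (j : ℝ) ^ δ) * D j := by
    rw [hAb1, hAb2, hG]
    simp only [hD]
    rw [show ∑ j ∈ Ico 1 n, ((((j + 1 : ℕ) : ℝ)) ^ δ - (j : ℝ) ^ δ) * (C * W s2 j - G s2 A j)
      = C * ∑ j ∈ Ico 1 n, ((((j + 1 : ℕ) : ℝ)) ^ δ - (j : ℝ) ^ δ) * W s2 j
        - ∑ j ∈ Ico 1 n, ((((j + 1 : ℕ) : ℝ)) ^ δ - (j : ℝ) ^ δ) * G s2 A j by
      rw [Finset.mul_sum, ← Finset.sum_sub_distrib]
      apply Finset.sum_congr rfl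
      intro j _
      ring]
    ring
  have hDn : D n ≤ ε * W s2 n := by
    simp only [hD]
    rw [← hG]
    linarith
  have hWn := W_le hs2 h2lt n
  have hWn0 := W_nonneg s2 n
  have hnδ : 0 < (n : ℝ) ^ δ := by positivity
  have hsum2 : ∑ j ∈ Ico 1 n, ((((j + 1 : ℕ) : ℝ)) ^ δ - (j : ℝ) ^ δ) * D j
      ≥ δ * (n : ℝ) ^ (δ - 1) * ∑ j ∈ Ico 1 n, f j - (n : ℝ) ^ δ * (ε * W s2 n + K0) := by
    have h1 : ∀ j ∈ Ico 1 n, δ * (n : ℝ) ^ (δ - 1) * f j
        - ((((j + 1 : ℕ) : ℝ)) ^ δ - (j : ℝ) ^ δ) * (ε * W s2 n + K0)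
        ≤ ((((j + 1 : ℕ) : ℝ)) ^ δ - (j : ℝ) ^ δ) * D j := by
      intro j hj
      have h3 := hΔ j hj
      have h4 := hΔ0 j hj
      have h5 : D j = f j - ε * W s2 j - K0 := by simp only [hf]; ring
      have h6 : W s2 j ≤ W s2 n := W_mono s2 (Finset.mem_Ico.1 hj).2.le
      have h7 : ε * W s2 j ≤ ε * W s2 n := by gcongr
      have h8 : δ * (n : ℝ) ^ (δ - 1) * f j ≤ ((((j + 1 : ℕ) : ℝ)) ^ δ - (j : ℝ) ^ δ) * f j :=
        mul_le_mul_of_nonneg_right h3 (hfnn j)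
      have h9 : ((((j + 1 : ℕ) : ℝ)) ^ δ - (j : ℝ) ^ δ) * (ε * W s2 j + K0)
          ≤ ((((j + 1 : ℕ) : ℝ)) ^ δ - (j : ℝ) ^ δ) * (ε * W s2 n + K0) :=
        mul_le_mul_of_nonneg_left (by linarith) h4
      rw [h5]
      nlinarith
    have h2 := Finset.sum_le_sum h1
    rw [Finset.sum_sub_distrib, ← Finset.mul_sum, ← Finset.sum_mul] at h2
    have h3 : (∑ j ∈ Ico 1 n, ((((j + 1 : ℕ) : ℝ)) ^ δ - (j : ℝ) ^ δ)) * (ε * W s2 n + K0)
        ≤ (n : ℝ) ^ δ * (ε * W s2 n + K0) := by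
      apply mul_le_mul_of_nonneg_right hΔsum
      positivity
    linarith
  -- lower bound of the sum of f
  have hfsum : ∑ j ∈ Ico 1 n, f j ≥ ((n : ℝ) ^ (1 + u) / (4 * u) - K2 * n) / Q - K0 := by
    have h1 : ((n : ℝ) ^ (1 + u) / (4 * u) - K2 * n) / Q ≤ ∑ i ∈ range n, f i := by
      rw [div_le_iff₀ hQ0]
      linarith
    rw [hsplit, hf0] at h1
    linarith
  have hfin1 : δ * (n : ℝ) ^ (δ - 1) * ∑ j ∈ Ico 1 n, f j
      ≥ κ * (n : ℝ) ^ u1 - (δ * K2 / Q + δ * K0) * (n : ℝ) ^ δ := by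
    have h1 : δ * (n : ℝ) ^ (δ - 1) * ∑ j ∈ Ico 1 n, f j
        ≥ δ * (n : ℝ) ^ (δ - 1) * (((n : ℝ) ^ (1 + u) / (4 * u) - K2 * n) / Q - K0) := by
      apply mul_le_mul_of_nonneg_left hfsum
      positivity
    have e1 : (n : ℝ) ^ (δ - 1) * (n : ℝ) ^ (1 + u) = (n : ℝ) ^ u1 := by
      rw [← Real.rpow_add hn0]
      congr 1
      rw [hδ, hu, hu1]; ring
    have e2 : (n : ℝ) ^ (δ - 1) * n = (n : ℝ) ^ δ := by
      rw [Real.rpow_sub_one hn0.ne']
      field_simp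
    have e3 : (n : ℝ) ^ (δ - 1) ≤ (n : ℝ) ^ δ := by
      apply Real.rpow_le_rpow_of_exponent_le hn1
      linarith
    have h3 : δ * (n : ℝ) ^ (δ - 1) * (((n : ℝ) ^ (1 + u) / (4 * u) - K2 * n) / Q - K0)
        = κ * (n : ℝ) ^ u1 - δ * K2 / Q * (n : ℝ) ^ δ - δ * K0 * (n : ℝ) ^ (δ - 1) := by
      rw [← e1, ← e2, hκ]
      field_simp
    rw [h3] at h1
    have h4 : δ * K0 * (n : ℝ) ^ (δ - 1) ≤ δ * K0 * (n : ℝ) ^ δ := by gcongr
    linarith
  have hu1' : (n : ℝ) ^ u1 = (n : ℝ) ^ δ * (n : ℝ) ^ u := by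
    rw [← Real.rpow_add hn0]
    congr 1
    rw [hδ, hu, hu1]; ring
  have hN := hN1 n hn
  have hW1 := W_le h0 (by linarith : s1 < 1) n
  have hεW : ε * W s2 n ≤ κ / 4 * (n : ℝ) ^ u := by
    calc ε * W s2 n ≤ (κ * u / 4) * ((n : ℝ) ^ u / u) := by gcongr
      _ = κ / 4 * (n : ℝ) ^ u := by field_simp
  have h20 : - (n : ℝ) ^ δ * D n ≥ - (n : ℝ) ^ δ * (ε * W s2 n) := by nlinarith
  have h21 : (n : ℝ) ^ δ * (ε * W s2 n) ≤ κ / 4 * (n : ℝ) ^ u1 := by
    rw [hu1']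
    calc (n : ℝ) ^ δ * (ε * W s2 n) ≤ (n : ℝ) ^ δ * (κ / 4 * (n : ℝ) ^ u) := by gcongr
      _ = _ := by ring
  have h22 : (δ * K2 / Q + δ * K0 + K0) * (n : ℝ) ^ δ ≤ κ / 4 * (n : ℝ) ^ u1 := by
    rw [hu1']
    calc (δ * K2 / Q + δ * K0 + K0) * (n : ℝ) ^ δ ≤ ((κ / 4) * (n : ℝ) ^ u) * (n : ℝ) ^ δ := by gcongr
      _ = _ := by ring
  have h23 : κ * u1 / 4 * W s1 n ≤ κ / 4 * (n : ℝ) ^ u1 := by
    calc κ * u1 / 4 * W s1 n ≤ κ * u1 / 4 * ((n : ℝ) ^ u1 / u1) := by gcongr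
      _ = κ / 4 * (n : ℝ) ^ u1 := by field_simp
  have h24 : ∑ a ∈ A, w s1 a - C * W s1 n ≥ κ / 4 * (n : ℝ) ^ u1 := by
    rw [hmain]
    nlinarith
  linarith

end Pool.Agent.Lib.MP_def192_nt
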