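import Mathlib
import Pool.Agent.Lib.MP_def192_nt.Gain

set_option autoImplicit false

namespace Pool.Agent.Lib.MP_def192_nt

open Finset

/-- product of the primes below `y` -/
def pr (y : ℕ) : ℕ := ∏ p ∈ Nat.primesBelow y, p

theorem pr_pos (y : ℕ) : 0 < pr y :=
  Finset.prod_pos fun p hp => (Nat.prime_of_mem_primesBelow hp).pos

theorem dvd_pr {y p : ℕ} (hp : p.Prime) (h : p < y) : p ∣ pr y :=
  Finset.dvd_prod_of_mem _ (Nat.mem_primesBelow.2 ⟨h, hp⟩)

theorem lt_of_dvd_pr {y p : ℕ} (hp : p.Prime) (h : p ∣ pr y) : p < y := by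
  obtain ⟨q, hq, hpq⟩ := (hp.prime.dvd_finsetProd_iff _).1 h
  have hq' := Nat.mem_primesBelow.1 hq
  have : p = q := (Nat.prime_dvd_prime_iff_eq hp hq'.2).1 hpq
  rw [this]; exact hq'.1

theorem exists_decomp (y : ℕ) (a : ℕ) (ha : 0 < a) :
    ∃ k d : ℕ, a = k * d ∧ Nat.Coprime k (pr y) ∧ d ∈ Nat.smoothNumbers y := by
  induction a using Nat.strong_induction_on with
  | _ a ih =>
    by_cases hc : Nat.Coprime a (pr y)
    · exact ⟨a, 1, (mul_one a).symm, hc, by simp [Nat.mem_smoothNumbers]⟩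
    · obtain ⟨p, hp, hpa, hpp⟩ := Nat.Prime.not_coprime_iff_dvd.1 hc
      obtain ⟨b, rfl⟩ := hpa
      have hb : 0 < b := Nat.pos_of_mul_pos_left ha
      have hlt : b < p * b := by
        have := hp.two_le
        nlinarith
      obtain ⟨k, d, hkd, hk, hd⟩ := ih b hlt hb
      refine ⟨k, p * d, by rw [hkd]; ring, hk, ?_⟩
      apply Nat.mul_mem_smoothNumbers _ hd
      exact Nat.mem_smoothNumbers_of_lt hp.pos (lt_of_dvd_pr hp hpp)

theorem coprime_smooth {y k d : ℕ} (hk : Nat.Coprime k (pr y)) (hd : d ∈ Nat.smoothNumbers y) :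
    Nat.Coprime k d := by
  by_contra hc
  obtain ⟨p, hp, hpk, hpd⟩ := Nat.Prime.not_coprime_iff_dvd.1 hc
  have hpy : p < y := Nat.mem_smoothNumbers'.1 hd p hp hpd
  have := Nat.dvd_gcd hpk (dvd_pr hp hpy)
  rw [Nat.Coprime] at hk
  rw [hk] at this
  exact hp.one_lt.ne' (Nat.dvd_one.1 this)

theorem decomp_unique {y k d k' d' : ℕ} (hk : Nat.Coprime k (pr y)) (hd : d ∈ Nat.smoothNumbers y)
    (hk' : Nat.Coprime k' (pr y)) (hd' : d' ∈ Nat.smoothNumbers y) (h : k * d = k' * d') :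
    k = k' ∧ d = d' := by
  have h1 : k ∣ k' := (coprime_smooth hk hd').dvd_of_dvd_mul_right (by rw [← h]; exact Dvd.intro _ rfl)
  have h2 : k' ∣ k := (coprime_smooth hk' hd).dvd_of_dvd_mul_right (by rw [h]; exact Dvd.intro _ rfl)
  have h3 : k = k' := Nat.dvd_antisymm h1 h2
  refine ⟨h3, ?_⟩
  subst h3
  have hd0 : d ≠ 0 := Nat.ne_zero_of_mem_smoothNumbers hd
  rcases Nat.eq_zero_or_pos k with h0 | h0
  · -- k = 0 coprime to pr y means pr y = 1
    subst h0
    rw [Nat.coprime_zero_left] at hk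
    -- then y-smooth numbers are just 1
    have aux : ∀ e : ℕ, e ∈ Nat.smoothNumbers y → e = 1 := by
      intro e he
      by_contra hne
      obtain ⟨p, hp, hpe⟩ := Nat.exists_prime_and_dvd hne
      have := dvd_pr hp (Nat.mem_smoothNumbers'.1 he p hp hpe)
      rw [hk] at this
      exact hp.one_lt.ne' (Nat.dvd_one.1 this)
    rw [aux d hd, aux d' hd']
  · exact Nat.eq_of_mul_eq_mul_left h0 h

/-- count of numbers up to `m` with small rough part -/
theorem count_small_rough (y m B : ℕ) (k d : ℕ → ℕ)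
    (hkd : ∀ a, 0 < a → a = k a * d a ∧ Nat.Coprime (k a) (pr y) ∧ d a ∈ Nat.smoothNumbers y) :
    (((Icc 1 m).filter (fun a => k a < B)).card : ℝ) ≤ B * (2 ^ (Nat.primesBelow y).card * Real.sqrt m) := by
  classical
  have h1 : ((Icc 1 m).filter (fun a => k a < B)).card
      ≤ ((range B) ×ˢ (Nat.smoothNumbersUpTo m y)).card := by
    apply Finset.card_le_card_of_injOn (fun a => (k a, d a))
    · intro a ha
      simp only [Finset.coe_filter, Finset.mem_Icc, Set.mem_ofPred_eq] at ha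
      simp only [Finset.coe_product, Set.mem_prod, Finset.mem_coe, Finset.mem_range]
      obtain ⟨h1, h2, h3⟩ := hkd a ha.1.1
      refine ⟨ha.2, ?_⟩
      rw [Nat.mem_smoothNumbersUpTo]
      refine ⟨?_, h3⟩
      have hk0 : 0 < k a := by
        rcases Nat.eq_zero_or_pos (k a) with h | h
        · rw [h] at h1; omega
        · exact h
      calc d a ≤ k a * d a := Nat.le_mul_of_pos_left _ hk0
        _ = a := h1.symm
        _ ≤ m := ha.1.2
    · intro a ha b hb hab
      simp only [Finset.coe_filter, Finset.mem_Icc, Set.mem_ofPred_eq] at ha hb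
      simp only [Prod.mk.injEq] at hab
      rw [(hkd a ha.1.1).1, (hkd b hb.1.1).1, hab.1, hab.2]
  rw [Finset.card_product, Finset.card_range] at h1
  have h2 := Nat.smoothNumbersUpTo_card_le m y
  have h3 : (((Icc 1 m).filter (fun a => k a < B)).card : ℝ) ≤ (B : ℝ) * ((Nat.smoothNumbersUpTo m y).card : ℝ) := by
    exact_mod_cast h1
  have h4 : ((Nat.smoothNumbersUpTo m y).card : ℝ) ≤ 2 ^ (Nat.primesBelow y).card * (Nat.sqrt m : ℝ) := by
    exact_mod_cast h2
  have h5 : (Nat.sqrt m : ℝ) ≤ Real.sqrt m := Real.nat_sqrt_le_real_sqrt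
  calc _ ≤ (B : ℝ) * ((Nat.smoothNumbersUpTo m y).card : ℝ) := h3
    _ ≤ B * (2 ^ (Nat.primesBelow y).card * (Nat.sqrt m : ℝ)) := by gcongr
    _ ≤ _ := by gcongr

/-- Combinatorial core of the transfer: from a primitive set `A''` in `[1,m]`, build one in `[1,n]`. -/
theorem transfer_core {s : ℝ} (hs : 0 ≤ s) (T m n : ℕ) (hT : 1 ≤ T) (hm : 0 < m) (hmn : m ≤ n)
    (k d : ℕ → ℕ)
    (hkd : ∀ a, 0 < a → a = k a * d a ∧ Nat.Coprime (k a) (pr (2 * T)) ∧ d a ∈ Nat.smoothNumbers (2 * T))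
    (A : Finset ℕ) (hA : A ⊆ Icc 1 m) (hprim : Prim A) (hAT : ∀ a ∈ A, m < T * a)
    (hAk : ∀ a ∈ A, 3 * pr (2 * T) ≤ k a) :
    ∃ B : Finset ℕ, B ⊆ Icc 1 n ∧ Prim B ∧
      ((n : ℝ) / m - 1) * ((n : ℝ) / m) ^ (-s) * ∑ a ∈ A, w s a ≤ ∑ b ∈ B, w s b := by
  classical
  set P := pr (2 * T) with hP
  have hP0 : 0 < P := pr_pos _
  have hn : 0 < n := lt_of_lt_of_le hm hmn
  -- notation
  let q : ℕ → ℕ := fun a => k a / P
  let r : ℕ → ℕ := fun a => k a % P
  have hqr : ∀ a, P * q a + r a = k a := fun a => Nat.div_add_mod (k a) P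
  have hrP : ∀ a, r a < P := fun a => Nat.mod_lt _ hP0
  have hA1 : ∀ a ∈ A, 0 < a := fun a ha => (Finset.mem_Icc.1 (hA ha)).1
  have hAm : ∀ a ∈ A, a ≤ m := fun a ha => (Finset.mem_Icc.1 (hA ha)).2
  have hq3 : ∀ a ∈ A, 3 ≤ q a := by
    intro a ha
    have := hAk a ha
    exact (Nat.le_div_iff_mul_le hP0).2 this
  let X1 : ℕ → ℕ := fun a => (q a - 1) * P * n - r a * m
  let X2 : ℕ → ℕ := fun a => q a * P * n - r a * m
  let I : ℕ → Finset ℕ := fun a => Ioc (X1 a / (P * m)) (X2 a / (P * m))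
  have hPm : 0 < P * m := Nat.mul_pos hP0 hm
  have hrm : ∀ a ∈ A, r a * m ≤ (q a - 1) * P * n := by
    intro a ha
    have h3 := hq3 a ha
    have h1 : r a ≤ (q a - 1) * P := by
      have : 1 * P ≤ (q a - 1) * P := Nat.mul_le_mul_right _ (by omega)
      have := hrP a
      omega
    exact Nat.mul_le_mul h1 hmn
  have hrm2 : ∀ a ∈ A, r a * m ≤ q a * P * n := by
    intro a ha
    refine (hrm a ha).trans ?_
    apply Nat.mul_le_mul_right
    apply Nat.mul_le_mul_right
    omega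
  -- membership in I
  have hI : ∀ a ∈ A, ∀ i ∈ I a, (q a - 1) * P * n < (r a + P * i) * m ∧ (r a + P * i) * m ≤ q a * P * n := by
    intro a ha i hi
    simp only [I, Finset.mem_Ioc] at hi
    have h1 := hrm a ha
    have h2 := hrm2 a ha
    constructor
    · have h3 := (Nat.div_lt_iff_lt_mul hPm).1 hi.1
      simp only [X1] at h3
      have h4 : (q a - 1) * P * n < i * (P * m) + r a * m := by omega
      calc _ < i * (P * m) + r a * m := h4
        _ = (r a + P * i) * m := by ring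
    · have h3 := (Nat.le_div_iff_mul_le hPm).1 hi.2
      simp only [X2] at h3
      have h4 : i * (P * m) + r a * m ≤ q a * P * n := by omega
      calc (r a + P * i) * m = i * (P * m) + r a * m := by ring
        _ ≤ _ := h4
  -- cardinality of I
  have hIcard : ∀ a ∈ A, (n : ℝ) / m - 1 ≤ ((I a).card : ℝ) := by
    intro a ha
    simp only [I, Nat.card_Ioc]
    have h12 : X1 a ≤ X2 a := by
      simp only [X1, X2]
      apply Nat.sub_le_sub_right
      apply Nat.mul_le_mul_right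
      apply Nat.mul_le_mul_right
      omega
    have h3 : X2 a = X1 a + P * n := by
      simp only [X1, X2]
      have h1 := hrm a ha
      have h2 := hrm2 a ha
      have h4 : q a * P * n = (q a - 1) * P * n + P * n := by
        obtain ⟨t, ht⟩ : ∃ t, q a = t + 1 := ⟨q a - 1, by have := hq3 a ha; omega⟩
        rw [ht, Nat.add_sub_cancel]
        ring
      omega
    have h4 : X1 a / (P * m) ≤ X2 a / (P * m) := Nat.div_le_div_right h12
    rw [Nat.cast_sub h4]
    have hc : (0:ℝ) < ((P * m : ℕ) : ℝ) := by exact_mod_cast hPm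
    have h5 : (X2 a : ℝ) / ((P * m : ℕ) : ℝ) - 1 ≤ ((X2 a / (P * m) : ℕ) : ℝ) := by
      have := Nat.lt_div_mul_add hPm (a := X2 a)
      have h6 : (X2 a : ℝ) < ((X2 a / (P * m) : ℕ) : ℝ) * ((P * m : ℕ) : ℝ) + ((P * m : ℕ) : ℝ) := by
        exact_mod_cast this
      rw [sub_le_iff_le_add, div_le_iff₀ hc]
      nlinarith
    have h7 : ((X1 a / (P * m) : ℕ) : ℝ) ≤ (X1 a : ℝ) / ((P * m : ℕ) : ℝ) := Nat.cast_div_le
    have h8 : (X2 a : ℝ) / ((P * m : ℕ) : ℝ) = (X1 a : ℝ) / ((P * m : ℕ) : ℝ) + (n : ℝ) / m := by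
      rw [h3]
      push_cast
      have hP' : (P : ℝ) ≠ 0 := by exact_mod_cast hP0.ne'
      have hm' : (m : ℝ) ≠ 0 := by exact_mod_cast hm.ne'
      field_simp
    linarith
  let g : (Σ _ : ℕ, ℕ) → ℕ := fun x => (r x.1 + P * x.2) * d x.1
  set SG : Finset (Σ _ : ℕ, ℕ) := A.sigma I with hSG
  -- properties of each pair
  have hcopr : ∀ a ∈ A, ∀ i, Nat.Coprime (r a + P * i) P := by
    intro a ha i
    have h1 := (hkd a (hA1 a ha)).2.1
    have h2 : Nat.Coprime (r a) P := by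
      rw [← hqr a] at h1
      rw [add_comm] at h1
      exact (Nat.coprime_add_mul_left_left _ _ _).1 h1
    exact (Nat.coprime_add_mul_left_left _ _ _).2 h2
  have hdm : ∀ a ∈ A, d a ∈ Nat.smoothNumbers (2 * T) := fun a ha => (hkd a (hA1 a ha)).2.2
  have hdpos : ∀ a ∈ A, 0 < d a := fun a ha => Nat.pos_of_ne_zero (Nat.ne_zero_of_mem_smoothNumbers (hdm a ha))
  have haeq : ∀ a ∈ A, a = (P * q a + r a) * d a := by
    intro a ha
    rw [hqr a]; exact (hkd a (hA1 a ha)).1
  have hpair : ∀ x ∈ SG, g x * m ≤ x.1 * n ∧ 0 < g x ∧ n < 2 * T * g x := by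
    intro x hx
    rw [hSG, Finset.mem_sigma] at hx
    obtain ⟨ha, hi⟩ := hx
    set a := x.1
    set i := x.2
    obtain ⟨h1, h2⟩ := hI a ha i hi
    have hd0 := hdpos a ha
    have h3 := hq3 a ha
    have hg : g x = (r a + P * i) * d a := rfl
    refine ⟨?_, ?_, ?_⟩
    · calc g x * m = ((r a + P * i) * m) * d a := by rw [hg]; ring
        _ ≤ (q a * P * n) * d a := Nat.mul_le_mul_right _ h2
        _ ≤ ((P * q a + r a) * d a) * n := by
          have : q a * P ≤ P * q a + r a := by rw [mul_comm]; omega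
          calc (q a * P * n) * d a = (q a * P) * (n * d a) := by ring
            _ ≤ (P * q a + r a) * (n * d a) := Nat.mul_le_mul_right _ this
            _ = _ := by ring
        _ = a * n := by rw [← haeq a ha]
    · rw [hg]
      apply Nat.mul_pos _ hd0
      by_contra hcon
      have : r a + P * i = 0 := by omega
      rw [this] at h1
      omega
    · -- 2 k m > k0 n
      have h4 : (P * q a + r a) * n < 2 * ((r a + P * i) * m) := by
        have h5 : P * q a + r a ≤ 2 * ((q a - 1) * P) := by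
          obtain ⟨t, ht⟩ : ∃ t, q a = t + 3 := ⟨q a - 3, by omega⟩
          have hr := hrP a
          rw [ht]
          have : t + 3 - 1 = t + 2 := by omega
          rw [this]
          nlinarith
        calc (P * q a + r a) * n ≤ 2 * ((q a - 1) * P) * n := Nat.mul_le_mul_right _ h5
          _ = 2 * ((q a - 1) * P * n) := by ring
          _ < 2 * ((r a + P * i) * m) := by omega
      have h5 : a * n < 2 * (g x * m) := by
        calc a * n = ((P * q a + r a) * n) * d a := by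
              conv_lhs => rw [haeq a ha]
              ring
          _ < (2 * ((r a + P * i) * m)) * d a := (Nat.mul_lt_mul_right hd0).2 h4
          _ = 2 * (g x * m) := by rw [hg]; ring
      have h6 := hAT a ha
      have h7 : m * n < (2 * T * g x) * m := by
        calc m * n < (T * a) * n := (Nat.mul_lt_mul_right hn).2 h6
          _ = T * (a * n) := by ring
          _ ≤ T * (2 * (g x * m)) := Nat.mul_le_mul_left _ h5.le
          _ = (2 * T * g x) * m := by ring
      rw [mul_comm m n] at h7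
      exact (Nat.mul_lt_mul_right hm).1 h7
  -- if the rough parts agree then the original rough parts agree
  have hkey : ∀ x ∈ SG, ∀ y ∈ SG, r x.1 + P * x.2 = r y.1 + P * y.2 →
      k x.1 = k y.1 ∧ x.2 = y.2 := by
    intro x hx y hy hxy
    rw [hSG, Finset.mem_sigma] at hx hy
    obtain ⟨h1, h2⟩ := hI x.1 hx.1 x.2 hx.2
    obtain ⟨h3, h4⟩ := hI y.1 hy.1 y.2 hy.2
    have hr : r x.1 = r y.1 := by
      have e1 : (r x.1 + P * x.2) % P = r x.1 := by
        rw [Nat.add_mul_mod_self_left, Nat.mod_eq_of_lt (hrP _)]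
      have e2 : (r y.1 + P * y.2) % P = r y.1 := by
        rw [Nat.add_mul_mod_self_left, Nat.mod_eq_of_lt (hrP _)]
      rw [← e1, ← e2, hxy]
    have hi : x.2 = y.2 := by
      have : P * x.2 = P * y.2 := by omega
      exact Nat.eq_of_mul_eq_mul_left hP0 this
    have hq : q x.1 = q y.1 := by
      rw [hxy] at h1 h2
      have hx3 := hq3 x.1 hx.1
      have hy3 := hq3 y.1 hy.1
      by_contra hne
      rcases Nat.lt_or_gt_of_ne hne with hlt | hlt
      · have : q x.1 * P * n ≤ (q y.1 - 1) * P * n := by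
          apply Nat.mul_le_mul_right
          apply Nat.mul_le_mul_right
          omega
        omega
      · have : q y.1 * P * n ≤ (q x.1 - 1) * P * n := by
          apply Nat.mul_le_mul_right
          apply Nat.mul_le_mul_right
          omega
        omega
    refine ⟨?_, hi⟩
    rw [← hqr x.1, ← hqr y.1, hq, hr]
  have hinj : Set.InjOn g (SG : Set (Σ _ : ℕ, ℕ)) := by
    intro x hx y hy hxy
    have hx' := hx
    have hy' := hy
    rw [Finset.mem_coe] at hx hy hx' hy'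
    rw [hSG, Finset.mem_sigma] at hx' hy'
    have h1 : (r x.1 + P * x.2) * d x.1 = (r y.1 + P * y.2) * d y.1 := hxy
    obtain ⟨h2, h3⟩ := decomp_unique (y := 2 * T) (hcopr x.1 hx'.1 x.2) (hdm _ hx'.1)
      (hcopr y.1 hy'.1 y.2) (hdm _ hy'.1) h1
    obtain ⟨h4, h5⟩ := hkey x hx y hy h2
    have h6 : x.1 = y.1 := by
      rw [(hkd x.1 (hA1 _ hx'.1)).1, (hkd y.1 (hA1 _ hy'.1)).1, h4, h3]
    obtain ⟨x1, x2⟩ := x
    obtain ⟨y1, y2⟩ := y
    simp only at h5 h6
    subst h5; subst h6; rfl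
  refine ⟨SG.image g, ?_, ?_, ?_⟩
  · intro b hb
    rw [Finset.mem_image] at hb
    obtain ⟨x, hx, rfl⟩ := hb
    obtain ⟨h1, h2, h3⟩ := hpair x hx
    rw [Finset.mem_Icc]
    refine ⟨h2, ?_⟩
    have hx1 : x.1 ≤ m := hAm _ (Finset.mem_sigma.1 hx).1
    have : g x * m ≤ n * m := by
      calc g x * m ≤ x.1 * n := h1
        _ ≤ m * n := Nat.mul_le_mul_right _ hx1
        _ = n * m := mul_comm _ _
    exact Nat.le_of_mul_le_mul_right this hm
  · intro a ha b hb hab
    rw [Finset.mem_image] at ha hb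
    obtain ⟨x, hx, rfl⟩ := ha
    obtain ⟨y, hy, rfl⟩ := hb
    obtain ⟨h1, h2, h3⟩ := hpair x hx
    obtain ⟨h4, h5, h6⟩ := hpair y hy
    have hx' := Finset.mem_sigma.1 hx
    have hy' := Finset.mem_sigma.1 hy
    obtain ⟨t, ht⟩ := hab
    have hyn : g y ≤ n := by
      have hx1 : y.1 ≤ m := hAm _ (Finset.mem_sigma.1 hy).1
      have : g y * m ≤ n * m := by
        calc g y * m ≤ y.1 * n := h4
          _ ≤ m * n := Nat.mul_le_mul_right _ hx1
          _ = n * m := mul_comm _ _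
      exact Nat.le_of_mul_le_mul_right this hm
    have ht0 : 0 < t := by
      rcases Nat.eq_zero_or_pos t with h | h
      · rw [h, mul_zero] at ht; omega
      · exact h
    have htT : t < 2 * T := by
      have : g x * t < g x * (2 * T) := by
        calc g x * t = g y := ht.symm
          _ ≤ n := hyn
          _ < 2 * T * g x := h3
          _ = g x * (2 * T) := by ring
      exact (Nat.mul_lt_mul_left h2).1 this
    have hts : t ∈ Nat.smoothNumbers (2 * T) := Nat.mem_smoothNumbers_of_lt ht0 htT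
    have h7 : (r x.1 + P * x.2) * (d x.1 * t) = (r y.1 + P * y.2) * d y.1 := by
      rw [← mul_assoc]; exact ht.symm
    obtain ⟨h8, h9⟩ := decomp_unique (y := 2 * T) (hcopr x.1 hx'.1 x.2)
      (Nat.mul_mem_smoothNumbers (hdm _ hx'.1) hts)
      (hcopr y.1 hy'.1 y.2) (hdm _ hy'.1) h7
    obtain ⟨h10, h11⟩ := hkey x hx y hy h8
    have h12 : x.1 ∣ y.1 := by
      rw [(hkd x.1 (hA1 _ hx'.1)).1, (hkd y.1 (hA1 _ hy'.1)).1, h10, ← h9]
      exact ⟨t, by ring⟩
    have h13 := hprim _ hx'.1 _ hy'.1 h12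
    obtain ⟨x1, x2⟩ := x
    obtain ⟨y1, y2⟩ := y
    simp only at h11 h13
    subst h11; subst h13; rfl
  · rw [Finset.sum_image (fun x hx y hy h => hinj hx hy h), hSG, Finset.sum_sigma, Finset.mul_sum]
    apply Finset.sum_le_sum
    intro a ha
    have hnm : (0:ℝ) < (n : ℝ) / m := by positivity
    have h1 : ∀ i ∈ I a, ((n : ℝ) / m) ^ (-s) * w s a ≤ w s (g ⟨a, i⟩) := by
      intro i hi
      obtain ⟨h2, h3, h4⟩ := hpair ⟨a, i⟩ (Finset.mem_sigma.2 ⟨ha, hi⟩)
      unfold w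
      rw [← Real.mul_rpow hnm.le (by positivity)]
      apply Real.rpow_le_rpow_of_nonpos
      · exact_mod_cast h3
      · rw [div_mul_eq_mul_div, le_div_iff₀ (by positivity)]
        have : ((g ⟨a, i⟩ * m : ℕ) : ℝ) ≤ ((a * n : ℕ) : ℝ) := by exact_mod_cast h2
        push_cast at this
        linarith
      · linarith
    calc ((n : ℝ) / m - 1) * ((n : ℝ) / m) ^ (-s) * w s a
        ≤ ((I a).card : ℝ) * (((n : ℝ) / m) ^ (-s) * w s a) := by
          rw [mul_assoc]
          apply mul_le_mul_of_nonneg_right (hIcard a ha)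
          exact mul_nonneg (by positivity) (w_nonneg _ _)
      _ = ∑ i ∈ I a, ((n : ℝ) / m) ^ (-s) * w s a := by
          rw [Finset.sum_const, nsmul_eq_mul]
      _ ≤ ∑ i ∈ I a, w s (g ⟨a, i⟩) := Finset.sum_le_sum h1

theorem transfer {s : ℝ} (hs : 0 ≤ s) (hs1 : s < 1) {η : ℝ} (hη : 0 < η) :
    ∃ N1 : ℕ, ∀ m ≥ N1, ∀ A : Finset ℕ, A ⊆ Icc 1 m → Prim A →
      ∃ N2 : ℕ, ∀ n ≥ N2, ∃ B : Finset ℕ, B ⊆ Icc 1 n ∧ Prim B ∧
        ((∑ a ∈ A, w s a) / W s m - η) * W s n ≤ ∑ b ∈ B, w s b := by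
  classical
  set u := 1 - s with hu
  have hu0 : 0 < u := by linarith
  -- choose T
  obtain ⟨T, hT1, hT⟩ : ∃ T : ℕ, 1 ≤ T ∧ (T : ℝ) ^ (-u) ≤ η / 4 := by
    have ht : Filter.Tendsto (fun n : ℕ => (n : ℝ) ^ (-u)) Filter.atTop (nhds 0) :=
      (tendsto_rpow_neg_atTop hu0).comp tendsto_natCast_atTop_atTop
    obtain ⟨N, hN⟩ := Filter.eventually_atTop.1 (ht.eventually (ge_mem_nhds (by positivity : (0:ℝ) < η / 4)))
    exact ⟨max N 1, le_max_right _ _, hN _ (le_max_left _ _)⟩
  have hTpos : (0:ℝ) < T := by exact_mod_cast hT1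
  have hdec := fun a ha => exists_decomp (2 * T) a ha
  choose! k d hkd using hdec
  set P := pr (2 * T) with hP
  have hP0 : 0 < P := pr_pos _
  set cT : ℝ := ((3 * P : ℕ) : ℝ) * 2 ^ (Nat.primesBelow (2 * T)).card with hcT
  have hcT0 : 0 ≤ cT := by positivity
  -- choose N1
  obtain ⟨N1, hN1pos, hN1⟩ : ∃ N1 : ℕ, 1 ≤ N1 ∧ ∀ m : ℕ, N1 ≤ m →
      2 ≤ (m : ℝ) ^ u ∧ 1 / ((m : ℝ) ^ u - 1) ≤ η / 4 ∧
      u * cT * (T : ℝ) ^ s * (m : ℝ) ^ (-(1/2 : ℝ)) ≤ η / 4 := by
    have ht1 : Filter.Tendsto (fun n : ℕ => (n : ℝ) ^ u) Filter.atTop Filter.atTop :=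
      (tendsto_rpow_atTop hu0).comp tendsto_natCast_atTop_atTop
    have ht2 : Filter.Tendsto (fun n : ℕ => u * cT * (T : ℝ) ^ s * (n : ℝ) ^ (-(1/2 : ℝ)))
        Filter.atTop (nhds 0) := by
      have := ((tendsto_rpow_neg_atTop (by norm_num : (0:ℝ) < 1/2)).comp
        tendsto_natCast_atTop_atTop).const_mul (u * cT * (T : ℝ) ^ s)
      simpa using this
    obtain ⟨N, hN⟩ := Filter.eventually_atTop.1 ((ht1.eventually_ge_atTop (max 2 (1 + 4 / η))).and
      (ht2.eventually (ge_mem_nhds (by positivity : (0:ℝ) < η / 4))))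
    refine ⟨max N 1, le_max_right _ _, fun m hm => ?_⟩
    obtain ⟨h1, h2⟩ := hN m (le_trans (le_max_left _ _) hm)
    refine ⟨le_trans (le_max_left _ _) h1, ?_, h2⟩
    have h3 : 1 + 4 / η ≤ (m : ℝ) ^ u := le_trans (le_max_right _ _) h1
    have h4 : 0 < 4 / η := by positivity
    rw [div_le_iff₀ (by linarith)]
    have h5 : η / 4 * (4 / η) = 1 := by field_simp
    nlinarith
  refine ⟨N1, ?_⟩
  intro m hm A hA hprim
  obtain ⟨hm2, hm3, hm4⟩ := hN1 m hm
  have hmpos : 0 < m := by omega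
  have hmR : (0:ℝ) < m := by exact_mod_cast hmpos
  -- choose N2
  obtain ⟨N2, hN2⟩ : ∃ N2 : ℕ, (m : ℝ) * 4 / η ≤ N2 := exists_nat_ge _
  refine ⟨max N2 m, ?_⟩
  intro n hn
  have hmn : m ≤ n := le_trans (le_max_right _ _) hn
  have hnN2 : N2 ≤ n := le_trans (le_max_left _ _) hn
  have hnpos : 0 < n := by omega
  have hnR : (0:ℝ) < n := by exact_mod_cast hnpos
  set S' := ∑ a ∈ A, w s a with hS'
  have hS'0 : 0 ≤ S' := Finset.sum_nonneg fun _ _ => w_nonneg _ _
  have hWm : 0 < W s m := W_pos hs hmpos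
  by_cases hneg : S' / W s m - η ≤ 0
  · refine ⟨∅, by simp, fun a ha => by simp at ha, ?_⟩
    simp only [Finset.sum_empty]
    exact mul_nonpos_of_nonpos_of_nonneg hneg (W_nonneg _ _)
  push Not at hneg
  set A'' := A.filter (fun a => m < T * a ∧ 3 * P ≤ k a) with hA''
  obtain ⟨B, hB1, hB2, hB3⟩ := transfer_core hs T m n hT1 hmpos hmn k d
    (fun a ha => hkd a ha) A'' ((Finset.filter_subset _ _).trans hA) (hprim.filter _)
    (fun a ha => (Finset.mem_filter.1 ha).2.1) (fun a ha => (Finset.mem_filter.1 ha).2.2)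
  refine ⟨B, hB1, hB2, le_trans ?_ hB3⟩
  set S'' := ∑ a ∈ A'', w s a with hS''
  have hS''0 : 0 ≤ S'' := Finset.sum_nonneg fun _ _ => w_nonneg _ _
  -- lower bound for S''
  have hE : S' - ((m : ℝ) / T) ^ u / u - cT * Real.sqrt m * ((m : ℝ) / T) ^ (-s) ≤ S'' := by
    have h1 : S' = S'' + ∑ a ∈ A.filter (fun a => ¬ (m < T * a ∧ 3 * P ≤ k a)), w s a := by
      rw [hS', hS'', hA'', Finset.sum_filter_add_sum_filter_not]
    have h2 : A.filter (fun a => ¬ (m < T * a ∧ 3 * P ≤ k a))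
        ⊆ Icc 1 (m / T) ∪ ((Icc 1 m).filter (fun a => k a < 3 * P)).filter (fun a => m < T * a) := by
      intro a ha
      simp only [Finset.mem_filter, not_and, not_le] at ha
      have h3 := Finset.mem_Icc.1 (hA ha.1)
      simp only [Finset.mem_union, Finset.mem_Icc, Finset.mem_filter]
      by_cases h4 : m < T * a
      · right
        exact ⟨⟨h3, ha.2 h4⟩, h4⟩
      · left
        refine ⟨h3.1, ?_⟩
        rw [Nat.le_div_iff_mul_le hT1]
        push Not at h4
        linarith [mul_comm a T]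
    have h3 : ∑ a ∈ A.filter (fun a => ¬ (m < T * a ∧ 3 * P ≤ k a)), w s a
        ≤ ∑ a ∈ Icc 1 (m / T), w s a
          + ∑ a ∈ ((Icc 1 m).filter (fun a => k a < 3 * P)).filter (fun a => m < T * a), w s a := by
      refine le_trans (Finset.sum_le_sum_of_subset_of_nonneg h2 (fun _ _ _ => w_nonneg _ _)) ?_
      have := Finset.sum_union_inter (s₁ := Icc 1 (m / T))
        (s₂ := ((Icc 1 m).filter (fun a => k a < 3 * P)).filter (fun a => m < T * a)) (f := w s)
      have h4 : 0 ≤ ∑ a ∈ Icc 1 (m / T) ∩ ((Icc 1 m).filter (fun a => k a < 3 * P)).filter (fun a => m < T * a), w s a :=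
        Finset.sum_nonneg fun _ _ => w_nonneg _ _
      linarith
    have h4 : ∑ a ∈ Icc 1 (m / T), w s a ≤ ((m : ℝ) / T) ^ u / u := by
      refine le_trans (W_le hs hs1 (m / T)) ?_
      rw [← hu]
      apply div_le_div_of_nonneg_right _ hu0.le
      apply Real.rpow_le_rpow (by positivity) _ hu0.le
      exact Nat.cast_div_le
    have h5 : ∑ a ∈ ((Icc 1 m).filter (fun a => k a < 3 * P)).filter (fun a => m < T * a), w s a
        ≤ cT * Real.sqrt m * ((m : ℝ) / T) ^ (-s) := by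
      have h6 : ∀ a ∈ ((Icc 1 m).filter (fun a => k a < 3 * P)).filter (fun a => m < T * a),
          w s a ≤ ((m : ℝ) / T) ^ (-s) := by
        intro a ha
        simp only [Finset.mem_filter, Finset.mem_Icc] at ha
        unfold w
        apply Real.rpow_le_rpow_of_nonpos (by positivity) _ (by linarith)
        rw [div_le_iff₀ hTpos]
        have : (m : ℝ) < T * a := by exact_mod_cast ha.2
        linarith [mul_comm (a : ℝ) T]
      refine le_trans (Finset.sum_le_sum h6) ?_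
      rw [Finset.sum_const, nsmul_eq_mul]
      apply mul_le_mul_of_nonneg_right _ (by positivity)
      have h7 := Finset.card_filter_le ((Icc 1 m).filter (fun a => k a < 3 * P)) (fun a => m < T * a)
      have h8 := count_small_rough (2 * T) m (3 * P) k d hkd
      have h9 : ((((Icc 1 m).filter (fun a => k a < 3 * P)).filter (fun a => m < T * a)).card : ℝ)
          ≤ (((Icc 1 m).filter (fun a => k a < 3 * P)).card : ℝ) := by exact_mod_cast h7
      refine le_trans h9 (le_trans h8 ?_)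
      rw [hcT]
      apply le_of_eq; ring
    linarith
  -- analytic part
  set M := (m : ℝ) ^ u with hM
  have hM2 : 2 ≤ M := hm2
  have hM0 : 0 < M := by linarith
  have hS'W : S' ≤ W s m := by
    rw [hS']
    unfold W
    exact Finset.sum_le_sum_of_subset_of_nonneg hA (fun _ _ _ => w_nonneg _ _)
  have hWmle : W s m ≤ M / u := W_le hs hs1 m
  have hWmge : (M - 1) / u ≤ W s m := le_W' hs hs1 m
  have hWn : W s n ≤ (n : ℝ) ^ u / u := W_le hs hs1 n
  have e1 : ((n : ℝ) / m - 1) * ((n : ℝ) / m) ^ (-s) = (n : ℝ) ^ u * ((1 - m / n) / M) := by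
    rw [Real.div_rpow hnR.le hmR.le, hM, hu]
    rw [show (-s) = (1 - s) - 1 by ring, Real.rpow_sub_one hnR.ne', Real.rpow_sub_one hmR.ne']
    field_simp
  rw [e1]
  have hmn' : (m : ℝ) / n ≤ η / 4 := by
    have h1 : (N2 : ℝ) ≤ n := by exact_mod_cast hnN2
    have h2 : (m : ℝ) * 4 / η ≤ n := le_trans hN2 h1
    rw [div_le_iff₀ hη] at h2
    rw [div_le_iff₀ hnR]
    linarith
  have hmn1 : (m : ℝ) / n ≤ 1 := by
    rw [div_le_one hnR]; exact_mod_cast hmn
  have hmn0 : 0 ≤ (m : ℝ) / n := by positivity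
  -- terms
  have hS'M : S' ≤ M / u := le_trans hS'W hWmle
  have t1 : S' / W s m ≤ u * S' / (M - 1) := by
    rw [div_le_div_iff₀ hWm (by linarith)]
    rw [div_le_iff₀ hu0] at hWmge
    nlinarith
  have t2 : u * S' / (M - 1) ≤ u * S' / M + 1 / (M - 1) := by
    have hM1 : 0 < M - 1 := by linarith
    rw [div_add_div _ _ hM0.ne' hM1.ne', div_le_div_iff₀ hM1 (by positivity)]
    have h3 : u * S' ≤ M := by
      rw [le_div_iff₀ hu0] at hS'M
      linarith
    nlinarith
  have e2 : ((m : ℝ) / T) ^ u / u * (u / M) = (T : ℝ) ^ (-u) := by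
    rw [Real.div_rpow hmR.le hTpos.le, ← hM, Real.rpow_neg hTpos.le]
    field_simp
  have e3 : cT * Real.sqrt m * ((m : ℝ) / T) ^ (-s) * (u / M) = u * cT * (T : ℝ) ^ s * (m : ℝ) ^ (-(1/2 : ℝ)) := by
    rw [Real.div_rpow hmR.le hTpos.le, Real.sqrt_eq_rpow, hM]
    have e4 : (m : ℝ) ^ (1/2 : ℝ) * (m : ℝ) ^ (-s) / (m : ℝ) ^ u = (m : ℝ) ^ (-(1/2 : ℝ)) := by
      rw [← Real.rpow_add hmR, ← Real.rpow_sub hmR]
      congr 1
      rw [hu]; ring
    rw [← e4, Real.rpow_neg hTpos.le]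
    field_simp
  have hE2 : u * S' / M - η / 4 - η / 4 ≤ u * S'' / M := by
    have h1 : (S' - ((m : ℝ) / T) ^ u / u - cT * Real.sqrt m * ((m : ℝ) / T) ^ (-s)) * (u / M) ≤ S'' * (u / M) :=
      mul_le_mul_of_nonneg_right hE (by positivity)
    rw [sub_mul, sub_mul, e2, e3] at h1
    have h2 : S' * (u / M) = u * S' / M := by ring
    have h3 : S'' * (u / M) = u * S'' / M := by ring
    rw [h2, h3] at h1
    linarith
  have hS''M : u * S'' / M ≤ 1 := by
    have h1 : S'' ≤ S' := by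
      rw [hS'', hS']
      exact Finset.sum_le_sum_of_subset_of_nonneg (Finset.filter_subset _ _) (fun _ _ _ => w_nonneg _ _)
    rw [div_le_one hM0]
    rw [le_div_iff₀ hu0] at hS'M
    nlinarith
  have hS''M0 : 0 ≤ u * S'' / M := by positivity
  have hfin : (S' / W s m - η) ≤ (1 - m / n) * (u * S'' / M) := by
    have : (m : ℝ) / n * (u * S'' / M) ≤ η / 4 := by
      calc (m : ℝ) / n * (u * S'' / M) ≤ (η / 4) * 1 := by gcongr
        _ = η / 4 := mul_one _
    linarith
  calc (S' / W s m - η) * W s n ≤ (S' / W s m - η) * ((n : ℝ) ^ u / u) :=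
        mul_le_mul_of_nonneg_left hWn hneg.le
    _ ≤ ((1 - m / n) * (u * S'' / M)) * ((n : ℝ) ^ u / u) := by gcongr
    _ = (n : ℝ) ^ u * ((1 - m / n) / M) * S'' := by field_simp

end Pool.Agent.Lib.MP_def192_nt
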