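import Mathlib
import Pool.Agent.Lib.MP_def192_nt.Transfer

set_option autoImplicit false

namespace Pool.Agent.Lib.MP_def192_nt

open Finset

/-- the primitive set `(n/2, n]` has a definite share. -/
theorem lower_set {s : ℝ} (hs : 0 ≤ s) (hs1 : s < 1) (n : ℕ) (hn : 0 < n) :
    Prim (Ioc (n / 2) n) ∧ Ioc (n / 2) n ⊆ Icc 1 n ∧
      (1 - s) / 2 * W s n ≤ ∑ a ∈ Ioc (n / 2) n, w s a := by
  have hu0 : 0 < 1 - s := by linarith
  have hnR : (0:ℝ) < n := by exact_mod_cast hn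
  refine ⟨?_, ?_, ?_⟩
  · intro a ha b hb hab
    simp only [Finset.mem_Ioc] at ha hb
    obtain ⟨t, rfl⟩ := hab
    rcases Nat.lt_or_ge t 2 with h | h
    · interval_cases t
      · omega
      · omega
    · have : a * 2 ≤ a * t := Nat.mul_le_mul_left _ h
      omega
  · intro a ha
    simp only [Finset.mem_Ioc, Finset.mem_Icc] at ha ⊢
    omega
  · have h1 : ∀ a ∈ Ioc (n / 2) n, (n : ℝ) ^ (-s) ≤ w s a := by
      intro a ha
      simp only [Finset.mem_Ioc] at ha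
      unfold w
      apply Real.rpow_le_rpow_of_nonpos
      · exact_mod_cast (by omega : 0 < a)
      · exact_mod_cast ha.2
      · linarith
    have h2 := Finset.sum_le_sum h1
    rw [Finset.sum_const, Nat.card_Ioc, nsmul_eq_mul] at h2
    have h3 : (n : ℝ) / 2 ≤ ((n - n / 2 : ℕ) : ℝ) := by
      rw [Nat.cast_sub (Nat.div_le_self n 2)]
      have : ((n / 2 : ℕ) : ℝ) ≤ (n : ℝ) / 2 := Nat.cast_div_le
      linarith
    have h4 := W_le hs hs1 n
    have e : (n : ℝ) ^ (1 - s) = n * (n : ℝ) ^ (-s) := by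
      rw [show (-s) = (1 - s) - 1 by ring, Real.rpow_sub_one hnR.ne']
      field_simp
    calc (1 - s) / 2 * W s n ≤ (1 - s) / 2 * ((n : ℝ) ^ (1 - s) / (1 - s)) := by gcongr
      _ = (n : ℝ) / 2 * (n : ℝ) ^ (-s) := by rw [e]; field_simp
      _ ≤ ((n - n / 2 : ℕ) : ℝ) * (n : ℝ) ^ (-s) := by gcongr
      _ ≤ _ := h2

theorem W_one_tendsto : Filter.Tendsto (fun n : ℕ => W 1 n) Filter.atTop Filter.atTop := by
  have h : (fun n : ℕ => W 1 n) = fun n : ℕ => ∑ i ∈ range n, (1 / ((i : ℝ) + 1)) := by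
    funext n
    unfold W w
    rw [Finset.range_eq_Ico]
    have : Icc 1 n = Ico 1 (n + 1) := by ext; simp
    rw [this]
    rw [← Finset.sum_Ico_add' (fun m : ℕ => (m : ℝ) ^ (-(1:ℝ))) 0 n 1]
    apply Finset.sum_congr rfl
    intro i _
    rw [Real.rpow_neg_one]
    push_cast
    rw [one_div]
  rw [h]
  exact Real.tendsto_sum_range_one_div_nat_succ_atTop

/-- for the weight `1/m` all primitive sets have a small share. -/
theorem upper_one {η : ℝ} (hη : 0 < η) : ∃ N : ℕ, ∀ n ≥ N, ∀ A : Finset ℕ, A ⊆ Icc 1 n → Prim A →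
    ∑ a ∈ A, w 1 a ≤ η * W 1 n := by
  classical
  obtain ⟨L, hL⟩ := exists_bb_le (η / 3) (by positivity)
  obtain ⟨R, hR, hRK⟩ := exists_primes (max 1 (3 * 2 ^ L / η))
  set P1 : ℝ := ∑ S ∈ R.powerset, ((∏ p ∈ S, p : ℕ) : ℝ)⁻¹ with hP1
  have hP1pos : 0 < P1 := lt_of_lt_of_le one_pos (le_trans (le_max_left _ _) hRK)
  have hP1' : 3 * 2 ^ L / η ≤ P1 := le_trans (le_max_right _ _) hRK
  have hpos : ∀ S ∈ R.powerset, 0 < ∏ p ∈ S, p := fun S hS =>
      Finset.prod_pos fun p hp => (hR p (Finset.mem_powerset.1 hS hp)).pos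
  set K : ℝ := (R.powerset.card : ℝ) with hK
  obtain ⟨N, hN⟩ := Filter.eventually_atTop.1
    (W_one_tendsto.eventually_ge_atTop (3 * K / (P1 * η)))
  refine ⟨N, ?_⟩
  intro n hn A hA hprim
  have hA1 : ∀ a ∈ A, 1 ≤ a := fun a ha => (Finset.mem_Icc.1 (hA ha)).1
  have h1 := sperner_ineq hR A hA1 hprim 1 L n
  have hG : ∑ a ∈ A, w 1 a = G 1 A n := by
    unfold G
    rw [Finset.filter_true_of_mem]
    intro a ha
    exact (Finset.mem_Icc.1 (hA ha)).2
  have hw1 : ∀ j : ℕ, 0 < j → w 1 j = (j : ℝ)⁻¹ := by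
    intro j _
    unfold w
    rw [Real.rpow_neg_one]
  -- G n - G (n/j) ≤ j
  have hdiff : ∀ j : ℕ, 0 < j → G 1 A n - (j : ℝ) ≤ G 1 A (n / j) := by
    intro j hj
    have h2 : G 1 A n = G 1 A (n / j) + ∑ a ∈ (A.filter (· ≤ n)).filter (fun a => ¬ a ≤ n / j), w 1 a := by
      unfold G
      rw [← Finset.sum_filter_add_sum_filter_not (A.filter (· ≤ n)) (fun a => a ≤ n / j)]
      congr 1
      apply Finset.sum_congr _ (fun _ _ => rfl)
      ext a
      simp only [Finset.mem_filter]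
      constructor
      · rintro ⟨⟨h3, h4⟩, h5⟩
        exact ⟨h3, h5⟩
      · rintro ⟨h3, h5⟩
        exact ⟨⟨h3, h5.trans (Nat.div_le_self n j)⟩, h5⟩
    have h3 : ∑ a ∈ (A.filter (· ≤ n)).filter (fun a => ¬ a ≤ n / j), w 1 a ≤ (j : ℝ) := by
      have h4 : ∀ a ∈ (A.filter (· ≤ n)).filter (fun a => ¬ a ≤ n / j), w 1 a ≤ (((n / j + 1 : ℕ) : ℝ))⁻¹ := by
        intro a ha
        simp only [Finset.mem_filter, not_le] at ha
        rw [hw1 a (lt_of_le_of_lt (Nat.zero_le _) ha.2)]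
        apply inv_anti₀ (by positivity)
        exact_mod_cast ha.2
      refine le_trans (Finset.sum_le_sum h4) ?_
      rw [Finset.sum_const, nsmul_eq_mul]
      have h5 : ((A.filter (· ≤ n)).filter (fun a => ¬ a ≤ n / j)).card ≤ n := by
        refine le_trans (Finset.card_filter_le _ _) (le_trans (Finset.card_filter_le _ _) ?_)
        have := Finset.card_le_card hA
        rwa [Nat.card_Icc, Nat.add_sub_cancel] at this
      have h6 : n ≤ (n / j + 1) * j := by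
        have := Nat.lt_div_mul_add hj (a := n)
        nlinarith
      have h7 : (((A.filter (· ≤ n)).filter (fun a => ¬ a ≤ n / j)).card : ℝ) ≤ ((n / j + 1 : ℕ) : ℝ) * j := by
        exact_mod_cast h5.trans h6
      calc (((A.filter (· ≤ n)).filter (fun a => ¬ a ≤ n / j)).card : ℝ) * (((n / j + 1 : ℕ) : ℝ))⁻¹
          ≤ (((n / j + 1 : ℕ) : ℝ) * j) * (((n / j + 1 : ℕ) : ℝ))⁻¹ := by gcongr
        _ = j := by field_simp
    linarith
  have hlow : P1 * G 1 A n - K ≤ ∑ S ∈ R.powerset, w 1 (∏ p ∈ S, p) * G 1 A (n / (∏ p ∈ S, p)) := by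
    rw [hP1, hK, Finset.sum_mul, Finset.card_eq_sum_ones]
    push_cast
    rw [← Finset.sum_sub_distrib]
    apply Finset.sum_le_sum
    intro S hS
    have hj := hpos S hS
    have hj' : (0:ℝ) < ((∏ p ∈ S, p : ℕ) : ℝ) := by exact_mod_cast hj
    rw [hw1 _ hj]
    have h2 := hdiff _ hj
    have h3 : ((∏ p ∈ S, p : ℕ) : ℝ)⁻¹ * (G 1 A n - ((∏ p ∈ S, p : ℕ) : ℝ))
        ≤ ((∏ p ∈ S, p : ℕ) : ℝ)⁻¹ * G 1 A (n / (∏ p ∈ S, p)) := by gcongr
    rw [mul_sub, inv_mul_cancel₀ hj'.ne'] at h3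
    push_cast at h3 ⊢
    exact h3
  have hup : ∑ S ∈ R.powerset, w 1 (∏ p ∈ S, p) * W 1 (n / (∏ p ∈ S, p)) ≤ P1 * W 1 n := by
    rw [hP1, Finset.sum_mul]
    apply Finset.sum_le_sum
    intro S hS
    have hj := hpos S hS
    rw [hw1 _ hj]
    apply mul_le_mul_of_nonneg_left _ (by positivity)
    exact W_mono 1 (Nat.div_le_self _ _)
  rw [hG]
  have hWn := W_nonneg 1 n
  have hNn := hN n hn
  have h2 : bb L * ∑ S ∈ R.powerset, w 1 (∏ p ∈ S, p) * W 1 (n / (∏ p ∈ S, p)) ≤ (η / 3) * (P1 * W 1 n) := by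
    have h3 : 0 ≤ ∑ S ∈ R.powerset, w 1 (∏ p ∈ S, p) * W 1 (n / (∏ p ∈ S, p)) :=
      Finset.sum_nonneg fun _ _ => mul_nonneg (w_nonneg _ _) (W_nonneg _ _)
    gcongr
  have h3 : (2:ℝ) ^ L ≤ (η / 3) * P1 := by
    rw [div_le_iff₀ hη] at hP1'
    linarith
  have h4 : K ≤ (η / 3) * P1 * W 1 n := by
    rw [div_le_iff₀ (by positivity)] at hNn
    linarith
  have h5 : (2:ℝ) ^ L * W 1 n ≤ (η / 3) * P1 * W 1 n := by gcongr
  have h6 : P1 * G 1 A n ≤ P1 * (η * W 1 n) := by linarith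
  exact le_of_mul_le_mul_left h6 hP1pos

end Pool.Agent.Lib.MP_def192_nt
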